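import Pool.Agent.H446.AP14.H1
import Pool.Agent.H446.AP13.W7
import Pool.Agent.H446.AP7.Fam

/-!
# Non-ordinary places of the algebraic members of a family and the generic member

We look at families over `ℤ[ω_1, …, ω_s]`, with any number of parameters, of varieties

  `X_ω : y_j ^ (m_j) = f_j(ω, x)`, `j = 1, …, r`, `m_j = 1` or `m_j = 2`,

over the projective space of dimension `n`, where `f_j` is a form of degree `m_j d_j` in `x`: complete intersections
(`m_j = 1` for all `j`), double covers of projective spaces (`r = 1`, `m_1 = 2`), for example all hyperelliptic curves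
(`n = 1`), and their combinations, in particular the universal families. The parameters are algebraic numbers of any
degree.

**Ordinary.** For a set `P` of indices let the Hasse–Witt matrix of the fibre in characteristic `p` consist of the
coefficients of `x ^ (p w - w')` in `∏_{j ∈ P} f_j ^ ((p - 1) / m_j)`, `w, w'` running through the exponents with positive
entries and sum `∑_{j ∈ P} d_j`. It is the matrix of the Frobenius on the top cohomology of `O(- ∑_{j ∈ P} d_j)`. The Hasse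
invariant is the product of the determinants of these matrices. If it is not zero then the Frobenius is bijective on the
cohomology of the structure sheaf of the fibre, and for `r = 1` the converse is true; for curves this means that the
Jacobian is ordinary, and for curves and surfaces it means ordinarity in the sense of Bloch and Kato. (For `p = 2` and
`m_j = 2` the matrix has no such meaning.)

**The generic member.** Let `V` be an irreducible subvariety over `ℚ` of the affine space of the parameters, `g` a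
polynomial which is not zero on `V`, and `S` the closed subscheme of `𝔸^s_ℤ` defined by the ideal `𝔞` of `V`, without the
zeros of `g`. The restriction of the family to `S = Spec A` is a model of the member of the family over an algebraic
closure of the function field of `V`, which may be any algebraically closed field of characteristic zero and finite
transcendence degree. A prime `p` is somewhere ordinary if the Hasse invariant is not zero at some point of `S` of
characteristic `p`; then the closed points of `S` of characteristic `p` with nonzero Hasse invariant are dense in a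
component of the reduction of `S` modulo `p`. A prime `p` is generically ordinary if the reduction of `S` modulo `p` is not
empty and the Hasse invariant is not a zero divisor on it; then those points are dense in the reduction. If the reduction
is irreducible and reduced, the two properties are the same, see part (6) of the theorem. (By a general theorem, which is
not proved here, this is so for almost all `p` if `V` is geometrically irreducible.) The set of the closed points of `S`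
with nonzero Hasse invariant is dense in `S` if and only if infinitely many primes are somewhere ordinary for all `g`.

**Places.** Let `ω` be an algebraic point, of any degree. For every prime `p` let `ρ_p(ω)` be the proportion of the bad
places of `ℚ(ω)` over `p`, counted with their local degrees: those at which `ω` is integral and the Hasse invariant is
zero, in the local ring modulo `p` (that is in the residue field if the place is not ramified). The algebraic points `ω`
of `V` are models of varieties over `ℚ̄`. We show: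

* all algebraic points `ω` of `V`, of any degree, with heights at most `H`, outside of one hypersurface of degree at most
  `C N` that does not contain `V`, satisfy
  `∑_{p ≤ N} ρ_p(ω) log p / p ≤ ∑ log p / p + C √((H + 1) (1 + log N))`, where the second sum is over the primes `p ≤ N`
  which are not generically ordinary for `V`;
* the Zariski closure of every set of algebraic points `ω` with heights at most `H` and with many bad places, in the sense
  that `∑_{p ≤ N} ρ_p(ω) log p / p ≥ B(N)` for all `N`, for example `B(N) = β log N - M`, is a finite union of varieties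
  with at least `B(N) - C √(1 + log N)` primes which are not generically ordinary (with the weights `log p / p`);
* the Zariski closure of a set of algebraic points `ω` with heights at most `H` such that all places over all primes
  `p > y` are bad (counterexamples to the question), or more generally with `∑_p (1 - ρ_p(ω)) log p / p ≤ M`, is a finite
  union of varieties for which `∑ log p / p < ∞` over the somewhere ordinary primes: the generic members of these
  varieties are counterexamples too, up to a thin set of primes;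
* conversely, if `ω` is an algebraic point of `V` with `g(ω) ≠ 0`, then all the places over almost all the primes that are
  not somewhere ordinary are bad for `ω`;
* if some member over a field of characteristic `p` is an arrangement of hyperplanes in general position, or if it has a
  nonzero Hasse invariant for any other reason, then `p` is generically ordinary for the whole space, if `p` does not divide
  `g`. If this is so for almost all `p` (all hypersurfaces or complete intersections of given degrees) then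
  `∑_{p ≤ N} ρ_p(ω) log p / p ≤ C √((H + 1) (1 + log N))` outside of a hypersurface of degree at most `C N`: for all these
  members 100 percent of the places are ordinary, up to this error.
-/

set_option autoImplicit false

namespace Pool.Agent.Results.MP_adc574_ag.BoundedHeightMembers

open Polynomial Finset

open Pool.Agent.H446.AP6 (ZZ OA)
open Pool.Agent.H446.AP7 (hasseWitt)
open Pool.Agent.Y162.HW (lin)

/-! ### Heights, places, local rings -/

/-- The absolute logarithmic height of the algebraic number `z` is at most `H`: for the minimal polynomial `P` of `z`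
over `ℤ`, the Mahler measure is at most `exp (deg P * H)`. -/
def HeightLE (z : ℂ) (H : ℝ) : Prop := ∃ P : ℤ[X], Irreducible P ∧ 0 < P.natDegree ∧ 0 < P.leadingCoeff ∧
  aeval z P = 0 ∧ (P.map (Int.castRingHom ℂ)).mahlerMeasure ≤ Real.exp (P.natDegree * H)

/-- A prime ideal over `p` of the ring `ZZ` of the algebraic integers in `ℂ` (if `p` is not a prime, any prime ideal). -/
structure Place (p : ℕ) where
  ideal : Ideal ZZ
  isPrime : ideal.IsPrime
  mem : p.Prime → ((p : ℕ) : ZZ) ∈ ideal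

attribute [instance] Place.isPrime

variable {s : ℕ}

/-- The field generated by the coordinates of `ω`. -/
noncomputable abbrev fieldOf (ω : Fin s → ℂ) : IntermediateField ℚ ℂ := IntermediateField.adjoin ℚ (Set.range ω)

/-- The conjugate of the point `ω` under an embedding of its field. -/
noncomputable def conjugate (ω : Fin s → ℂ) (t : fieldOf ω →ₐ[ℚ] ℂ) : Fin s → ℂ :=
  fun i => t ⟨ω i, IntermediateField.subset_adjoin _ _ ⟨i, rfl⟩⟩

/-- The local ring of the field generated by the coordinates of `ω` at a place: the elements which are quotients of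
algebraic integers with a denominator outside the ideal, see `mem_local`. -/
noncomputable def Place.local {p : ℕ} (𝔓 : Place p) (ω : Fin s → ℂ) : Subring ℂ := OA 𝔓.ideal ⊓ (fieldOf ω).toSubring

lemma mem_local {p : ℕ} (𝔓 : Place p) (ω : Fin s → ℂ) (z : ℂ) : z ∈ 𝔓.local ω ↔
    (∃ s : ZZ, s ∉ 𝔓.ideal ∧ IsIntegral ℤ ((s : ℂ) * z)) ∧ z ∈ IntermediateField.adjoin ℚ (Set.range ω) :=
  Subring.mem_inf

/-! ### Families -/

/-- A family `y_j ^ (m_j) = f_j(ω, x)` over the projective space of dimension `n`, `f_j` a form of degree `m_j d_j` in `x`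
whose coefficients are polynomials in the parameters `ω_1, …, ω_s`. -/
structure Family (s : ℕ) where
  n : ℕ
  r : ℕ
  m : Fin r → ℕ
  d : Fin r → ℕ
  f : Fin r → MvPolynomial (Fin (n + 1)) (MvPolynomial (Fin s) ℤ)
  m_eq : ∀ j, m j = 1 ∨ m j = 2
  homogeneous : ∀ j, (f j).IsHomogeneous (m j * d j)

/-- The form `f_j(z, x)` of the member at the point `z`. -/
noncomputable def Family.value (L : Family s) {R : Type} [CommRing R] (z : Fin s → R) (j : Fin L.r) :
    MvPolynomial (Fin (L.n + 1)) R :=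
  MvPolynomial.map (MvPolynomial.eval₂Hom (Int.castRingHom R) z) (L.f j)

/-- The Hasse invariant of the member at the point `z` of a ring of characteristic `p`: the product of the determinants of
the matrices of the coefficients of `x ^ (p w - w')` in `∏_{j ∈ P} f_j(z, x) ^ ((p - 1) / m_j)`, for all sets `P` of indices
with `∑_{j ∈ P} d_j > n`, where `w`, `w'` are the exponents with positive entries and sum `∑_{j ∈ P} d_j` (see
`hasseWitt`). -/
noncomputable def Family.hasse (L : Family s) {R : Type} [CommRing R] (z : Fin s → R) (p : ℕ) : R :=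
  ∏ P ∈ univ.filter (fun P : Finset (Fin L.r) => L.n + 1 ≤ ∑ j ∈ P, L.d j),
    (hasseWitt L.n (∑ j ∈ P, L.d j - L.n - 1) p (∏ j ∈ P, L.value z j ^ ((p - 1) / L.m j))).det

/-- The place of `ℚ(ω)` below `𝔓` is bad: `ω` is integral at the place, and the Hasse invariant of the member at `ω` is zero
in the local ring modulo `p` (which is the residue field if the place is not ramified). -/
def Family.Bad (L : Family s) {p : ℕ} (𝔓 : Place p) (ω : Fin s → ℂ) : Prop :=
  ∃ h : ∀ i, ω i ∈ 𝔓.local ω,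
    L.hasse (fun i => Ideal.Quotient.mk (Ideal.span {((p : ℕ) : 𝔓.local ω)}) ⟨ω i, h i⟩) p = 0

/-- The proportion of the bad places of `ℚ(ω)` over `p`, counted with their local degrees: the proportion of the
conjugates `ω'` of `ω` for which the place of `ℚ(ω')` below `𝔓` is bad. -/
noncomputable def Family.proportion (L : Family s) {p : ℕ} (𝔓 : Place p) (ω : Fin s → ℂ) : ℝ :=
  (Nat.card {t : fieldOf ω →ₐ[ℚ] ℂ // L.Bad 𝔓 (conjugate ω t)} : ℝ) / Module.finrank ℚ (fieldOf ω)

/-- The sum of `ρ_p(ω) log p / p` over the primes `p ≤ N`. -/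
noncomputable def Family.badSum (L : Family s) (𝔓 : ∀ p, Place p) (ω : Fin s → ℂ) (N : ℕ) : ℝ :=
  ∑ p ∈ (Icc 1 N).filter Nat.Prime, L.proportion (𝔓 p) ω * (Real.log p / p)

/-- The algebraic points `ω` with heights at most `H` and with `∑_{p ≤ N} ρ_p(ω) log p / p ≥ B(N)` for all `N ≥ 1`. There is
no condition on their degree. -/
def Family.ManyBad (L : Family s) (𝔓 : ∀ p, Place p) (H : ℝ) (B : ℕ → ℝ) : Set (Fin s → ℂ) :=
  {ω | (∀ i, HeightLE (ω i) H) ∧ ∀ N, 1 ≤ N → B N ≤ L.badSum 𝔓 ω N}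

/-- The algebraic points `ω` with heights at most `H` and with `∑_p (1 - ρ_p(ω)) log p / p ≤ M`. There is no condition on
their degree. -/
def Family.AlmostAllBad (L : Family s) (𝔓 : ∀ p, Place p) (H M : ℝ) : Set (Fin s → ℂ) :=
  {ω | (∀ i, HeightLE (ω i) H) ∧ ∀ N : ℕ,
    ∑ p ∈ (Icc 1 N).filter Nat.Prime, (1 - L.proportion (𝔓 p) ω) * (Real.log p / p) ≤ M}

/-- The algebraic points `ω` with heights at most `H` such that all places of `ℚ(ω)` over all primes `p > y` are bad. -/
def Family.AllBad (L : Family s) (𝔓 : ∀ p, Place p) (H y : ℝ) : Set (Fin s → ℂ) :=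
  {ω | (∀ i, HeightLE (ω i) H) ∧ ∀ p : ℕ, p.Prime → y < p → ∀ t : fieldOf ω →ₐ[ℚ] ℂ, L.Bad (𝔓 p) (conjugate ω t)}

/-! ### Varieties of parameters -/

/-- The point `z` lies on the scheme defined by the ideal `𝔞`. -/
def IsZero (𝔞 : Ideal (MvPolynomial (Fin s) ℤ)) {k : Type*} [CommRing k] (z : Fin s → k) : Prop :=
  ∀ f ∈ 𝔞, MvPolynomial.aeval z f = 0

/-- The ideal `𝔞` defines an irreducible subvariety of the affine space over `ℚ` (and is its ideal over `ℤ`). -/
def IsVariety (𝔞 : Ideal (MvPolynomial (Fin s) ℤ)) : Prop :=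
  𝔞.IsPrime ∧ ∀ n : ℤ, MvPolynomial.C n ∈ 𝔞 → n = 0

/-- The prime `p` is somewhere ordinary: the Hasse invariant is not zero at some point of characteristic `p` of the scheme
`S` of the zeros of `𝔞` outside of the zeros of `g`. -/
def Family.Somewhere (L : Family s) (𝔞 : Ideal (MvPolynomial (Fin s) ℤ)) (g : MvPolynomial (Fin s) ℤ) (p : ℕ) : Prop :=
  ∃ (k : Type) (_ : Field k) (_ : CharP k p) (z : Fin s → k), IsZero 𝔞 z ∧ MvPolynomial.aeval z g ≠ 0 ∧
    L.hasse z p ≠ 0

/-- The polynomials which are zero on the reduction of `S` modulo `p`, that is the polynomials `f` with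
`g ^ N f ∈ 𝔞 + (p)` for some `N`, see `mem_redIdeal`. -/
def redIdeal (𝔞 : Ideal (MvPolynomial (Fin s) ℤ)) (g : MvPolynomial (Fin s) ℤ) (p : ℕ) :
    Ideal (MvPolynomial (Fin s) ℤ) := Pool.Agent.H446.AP13.Jp 𝔞 g p

lemma mem_redIdeal {𝔞 : Ideal (MvPolynomial (Fin s) ℤ)} {g f : MvPolynomial (Fin s) ℤ} {p : ℕ} :
    f ∈ redIdeal 𝔞 g p ↔ ∃ N : ℕ, g ^ N * f ∈ 𝔞 ⊔ Ideal.span {((p : ℕ) : MvPolynomial (Fin s) ℤ)} := Iff.rfl

/-- The prime `p` is generically ordinary: the reduction of `S` modulo `p` is not empty, and the Hasse invariant is not a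
zero divisor on it. (The functions are those given by polynomials; as `g` is invertible on `S`, it is the same for all
functions.) -/
def Family.Generically (L : Family s) (𝔞 : Ideal (MvPolynomial (Fin s) ℤ)) (g : MvPolynomial (Fin s) ℤ) (p : ℕ) : Prop :=
  1 ∉ redIdeal 𝔞 g p ∧ ∀ a : MvPolynomial (Fin s) ℤ ⧸ redIdeal 𝔞 g p,
    a * L.hasse (fun i => Ideal.Quotient.mk (redIdeal 𝔞 g p) (MvPolynomial.X i)) p = 0 → a = 0

open Classical in
/-- The sum of `log p / p` over the primes `p ≤ N` that are not generically ordinary. -/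
noncomputable def Family.nonSum (L : Family s) (𝔞 : Ideal (MvPolynomial (Fin s) ℤ)) (g : MvPolynomial (Fin s) ℤ)
    (N : ℕ) : ℝ :=
  ∑ p ∈ (Icc 1 N).filter fun p : ℕ => p.Prime ∧ ¬ L.Generically 𝔞 g p, Real.log p / p

open Classical in
/-- The sum of `log p / p` over the somewhere ordinary primes `p ≤ N`. -/
noncomputable def Family.ordSum (L : Family s) (𝔞 : Ideal (MvPolynomial (Fin s) ℤ)) (g : MvPolynomial (Fin s) ℤ)
    (N : ℕ) : ℝ :=
  ∑ p ∈ (Icc 1 N).filter fun p : ℕ => p.Prime ∧ L.Somewhere 𝔞 g p, Real.log p / p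

/-- The points of `T` are Zariski dense on the variety of `𝔞`. -/
def DenseOn (T : Set (Fin s → ℂ)) (𝔞 : Ideal (MvPolynomial (Fin s) ℤ)) : Prop :=
  ∀ R, (∀ ω ∈ T, IsZero 𝔞 ω → MvPolynomial.aeval ω R = 0) → R ∈ 𝔞

/-- The member at the point `z` over the field `K` is the arrangement of the linear forms `l j c`: the form number `j` is
the product of the `l j c`, to the power `m_j`, and any `n + 1` of the linear forms are linearly independent. -/
def Family.IsArrangement (L : Family s) {K : Type} [Field K] (z : Fin s → K)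
    (l : (j : Fin L.r) → Fin (L.d j) → Fin (L.n + 1) → K) : Prop :=
  (∀ j, L.value z j = (∏ c, lin (l j c)) ^ L.m j) ∧
  ∀ ρ : Fin (L.n + 1) → (j : Fin L.r) × Fin (L.d j), Function.Injective ρ →
    (Matrix.of fun i => l (ρ i).1 (ρ i).2).det ≠ 0

/-! ### Translation -/

/-- The Hasse invariant as a polynomial. -/
def Fs (L : Family s) : ℕ → Set (MvPolynomial (Fin s) ℤ) := fun p => {Pool.Agent.H446.AP14.hasse L.m L.d p L.f}

lemma hasse_eq (L : Family s) {R : Type} [CommRing R] (z : Fin s → R) (p : ℕ) :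
    L.hasse z p = MvPolynomial.aeval z (Pool.Agent.H446.AP14.hasse L.m L.d p L.f) := by
  have h1 := Pool.Agent.H446.AP14.map_hasse (MvPolynomial.eval₂Hom (Int.castRingHom R) z) L.m L.d p L.f
  have h2 : MvPolynomial.aeval z (Pool.Agent.H446.AP14.hasse L.m L.d p L.f) =
      MvPolynomial.eval₂Hom (Int.castRingHom R) z (Pool.Agent.H446.AP14.hasse L.m L.d p L.f) := by
    rw [MvPolynomial.aeval_def, MvPolynomial.coe_eval₂Hom]
    congr 1
  rw [h2, h1]
  rfl

lemma bad_iff (L : Family s) {p : ℕ} (𝔓 : Place p) (ω : Fin s → ℂ) :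
    L.Bad 𝔓 ω ↔ Pool.Agent.H446.AP11.GdO (Fs L) p (𝔓.local ω) ω := by
  constructor
  · rintro ⟨h, h0⟩
    refine ⟨h, fun F hF => ?_⟩
    rw [Set.mem_singleton_iff.1 hF]
    rw [hasse_eq] at h0
    exact (Pool.Agent.H446.AP11.aeval_mk_iff (Ideal.Quotient.mk (Ideal.span {((p : ℕ) : 𝔓.local ω)}))
      Pool.Agent.H446.AP6.mkO_eq_zero_iff h _).1 h0
  · rintro ⟨h, h0⟩
    refine ⟨h, ?_⟩
    rw [hasse_eq]
    exact (Pool.Agent.H446.AP11.aeval_mk_iff (Ideal.Quotient.mk (Ideal.span {((p : ℕ) : 𝔓.local ω)}))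
      Pool.Agent.H446.AP6.mkO_eq_zero_iff h _).2 (h0 _ rfl)

lemma some_iff (L : Family s) (𝔞 : Ideal (MvPolynomial (Fin s) ℤ)) (g : MvPolynomial (Fin s) ℤ) (p : ℕ) :
    L.Somewhere 𝔞 g p ↔ Pool.Agent.H446.AP10.Non (Fs L) 𝔞 g p := by
  constructor
  · rintro ⟨k, i1, i2, z, hz, hg, h⟩
    exact ⟨k, i1, i2, z, hz, hg, _, rfl, by rwa [hasse_eq] at h⟩
  · rintro ⟨k, i1, i2, z, hz, hg, F, hF, h⟩
    rw [Set.mem_singleton_iff.1 hF] at h
    exact ⟨k, i1, i2, z, hz, hg, by rwa [hasse_eq]⟩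

lemma gen_iff (L : Family s) (𝔞 : Ideal (MvPolynomial (Fin s) ℤ)) (g : MvPolynomial (Fin s) ℤ) (p : ℕ) :
    L.Generically 𝔞 g p ↔ Pool.Agent.H446.AP13.TE (Fs L) 𝔞 g p := by
  have key : ∀ b : MvPolynomial (Fin s) ℤ, Ideal.Quotient.mk (redIdeal 𝔞 g p) b *
      L.hasse (fun i => Ideal.Quotient.mk (redIdeal 𝔞 g p) (MvPolynomial.X i)) p = 0 ↔
      ∀ F ∈ Fs L p, b * F ∈ Pool.Agent.H446.AP13.Jp 𝔞 g p := by
    intro b
    rw [hasse_eq, Pool.Agent.H446.AP13.psi_aeval, ← map_mul, Ideal.Quotient.eq_zero_iff_mem]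
    constructor
    · rintro h F hF
      rw [Set.mem_singleton_iff.1 hF]
      exact h
    · intro h
      exact h _ rfl
  constructor
  · rintro ⟨h1, h2⟩
    refine ⟨h1, fun b hb => ?_⟩
    exact Ideal.Quotient.eq_zero_iff_mem.1 (h2 _ ((key b).2 hb))
  · rintro ⟨h1, h2⟩
    refine ⟨h1, fun a ha => ?_⟩
    obtain ⟨b, rfl⟩ := Ideal.Quotient.mk_surjective a
    exact Ideal.Quotient.eq_zero_iff_mem.2 (h2 b ((key b).1 ha))

lemma height_iff {z : ℂ} {H : ℝ} : HeightLE z H ↔ ∃ P : ℤ[X], Pool.Agent.H446.AP.Orb P ∧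
    Real.log (Pool.Agent.H446.AP.mm P) ≤ P.natDegree * H ∧ aeval z P = 0 := by
  constructor
  · rintro ⟨P, h1, h2, h3, h4, h5⟩
    refine ⟨P, ⟨h1, h2, h3⟩, ?_, h4⟩
    have h6 := Pool.Agent.H446.AP.one_le_mm h1.ne_zero
    have h7 := Real.log_le_log (by linarith) (show Pool.Agent.H446.AP.mm P ≤ _ from h5)
    rwa [Real.log_exp] at h7
  · rintro ⟨P, ⟨h1, h2, h3⟩, h4, h5⟩
    refine ⟨P, h1, h2, h3, h5, ?_⟩
    have h6 := Pool.Agent.H446.AP.one_le_mm h1.ne_zero
    have h7 := Real.exp_le_exp.2 h4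
    rwa [Real.exp_log (by linarith)] at h7

lemma log_div_nonneg {p : ℕ} : 0 ≤ Real.log p / (p : ℝ) := div_nonneg (Real.log_natCast_nonneg p) (Nat.cast_nonneg p)

lemma algebraic_of_height {z : ℂ} {H : ℝ} (h : HeightLE z H) : IsAlgebraic ℚ z := by
  obtain ⟨P, h1, -, h2⟩ := height_iff.1 h
  exact Pool.Agent.H446.AP5.algebraic_of h1 h2

lemma proportion_le {L : Family s} {p : ℕ} {𝔓 : Place p} {ω : Fin s → ℂ} (hω : ∀ i, IsAlgebraic ℚ (ω i)) :
    L.proportion 𝔓 ω ≤ 1 :=
  Pool.Agent.H446.AP13.rho_le (Gd := L.Bad 𝔓) hω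

/-! ### The universal family -/

/-- The exponents of the coefficients of the forms. -/
abbrev Idx (n r : ℕ) (m d : Fin r → ℕ) : Type :=
  (j : Fin r) × ((univ : Finset (Fin (n + 1))).finsuppAntidiag (m j * d j) : Finset (Fin (n + 1) →₀ ℕ))

/-- The family of all `y_j ^ (m_j) = f_j(x)`, `f_j` a form of degree `m_j d_j`: the parameters are the coefficients. -/
noncomputable def universal (n r : ℕ) (m d : Fin r → ℕ) (hm : ∀ j, m j = 1 ∨ m j = 2) :
    Family (Fintype.card (Idx n r m d)) where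
  n := n
  r := r
  m := m
  d := d
  f := fun j => ∑ u : ((univ : Finset (Fin (n + 1))).finsuppAntidiag (m j * d j) : Finset (Fin (n + 1) →₀ ℕ)),
    MvPolynomial.monomial (u : Fin (n + 1) →₀ ℕ) (MvPolynomial.X (Fintype.equivFin (Idx n r m d) ⟨j, u⟩))
  m_eq := hm
  homogeneous := fun j => by
    refine MvPolynomial.IsHomogeneous.sum _ _ _ fun u _ => ?_
    refine MvPolynomial.isHomogeneous_monomial _ ?_
    have h1 := (Finset.mem_finsuppAntidiag.1 u.2).1
    rw [Finsupp.degree_eq_sum]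
    exact h1

/-- Every tuple of forms is a member of the universal family. -/
lemma exists_member (n r : ℕ) (m d : Fin r → ℕ) (hm : ∀ j, m j = 1 ∨ m j = 2) {K : Type} [Field K]
    (F : Fin r → MvPolynomial (Fin (n + 1)) K) (hF : ∀ j, (F j).IsHomogeneous (m j * d j)) :
    ∃ z : Fin (Fintype.card (Idx n r m d)) → K, ∀ j, (universal n r m d hm).value z j = F j := by
  classical
  refine ⟨fun i => (F ((Fintype.equivFin (Idx n r m d)).symm i).1).coeff ((Fintype.equivFin (Idx n r m d)).symm i).2,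
    fun j => ?_⟩
  show MvPolynomial.map _ (∑ u : ((univ : Finset (Fin (n + 1))).finsuppAntidiag (m j * d j) :
    Finset (Fin (n + 1) →₀ ℕ)), MvPolynomial.monomial (u : Fin (n + 1) →₀ ℕ)
      (MvPolynomial.X (Fintype.equivFin (Idx n r m d) ⟨j, u⟩))) = F j
  rw [map_sum]
  have h1 : ∀ u : ((univ : Finset (Fin (n + 1))).finsuppAntidiag (m j * d j) : Finset (Fin (n + 1) →₀ ℕ)),
      MvPolynomial.map (MvPolynomial.eval₂Hom (Int.castRingHom K) fun i =>
        (F ((Fintype.equivFin (Idx n r m d)).symm i).1).coeff ((Fintype.equivFin (Idx n r m d)).symm i).2)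
        (MvPolynomial.monomial (u : Fin (n + 1) →₀ ℕ) (MvPolynomial.X (Fintype.equivFin (Idx n r m d) ⟨j, u⟩))) =
      MvPolynomial.monomial (u : Fin (n + 1) →₀ ℕ) ((F j).coeff u) := by
    intro u
    rw [MvPolynomial.map_monomial, MvPolynomial.coe_eval₂Hom, MvPolynomial.eval₂_X, Equiv.symm_apply_apply]
  rw [Finset.sum_congr rfl fun u _ => h1 u]
  rw [Finset.sum_coe_sort ((univ : Finset (Fin (n + 1))).finsuppAntidiag (m j * d j))
    (fun u => MvPolynomial.monomial u ((F j).coeff u))]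
  conv_rhs => rw [MvPolynomial.as_sum (F j)]
  symm
  refine Finset.sum_subset (fun u hu => ?_) fun u _ hu => ?_
  · rw [Finset.mem_finsuppAntidiag]
    refine ⟨?_, Finset.subset_univ _⟩
    have h2 := hF j (MvPolynomial.mem_support_iff.1 hu)
    rw [← h2, Pi.one_def, ← Finsupp.degree_eq_weight_one, Finsupp.degree_eq_sum]
  · rw [MvPolynomial.notMem_support_iff.1 hu, MvPolynomial.monomial_zero]

/-- The linear forms of an arrangement have degree one. -/
lemma lin_homogeneous {n : ℕ} {K : Type} [Field K] (a : Fin (n + 1) → K) : (lin a).IsHomogeneous 1 := by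
  unfold lin
  refine MvPolynomial.IsHomogeneous.sum _ _ _ fun i _ => ?_
  have h1 := (MvPolynomial.isHomogeneous_C (Fin (n + 1)) (a i)).mul (MvPolynomial.isHomogeneous_X K i)
  rwa [zero_add] at h1

lemma hasse_arrangement {L : Family s} {p : ℕ} (hp : p.Prime) (hm : ∀ j, L.m j ∣ p - 1) {K : Type} [Field K] [CharP K p]
    {z : Fin s → K} {l : (j : Fin L.r) → Fin (L.d j) → Fin (L.n + 1) → K} (h : L.IsArrangement z l) :
    L.hasse z p ≠ 0 := by
  classical
  have h1 := Pool.Agent.H446.AP7.not_nonOrd_arrangement hp hm l h.2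
  unfold Family.hasse
  rw [Finset.prod_ne_zero_iff]
  intro P hP h0
  have h2 := (mem_filter.1 hP).2
  refine h1 ⟨P, ∑ j ∈ P, L.d j - L.n - 1, by omega, ?_⟩
  have h3 : Pool.Agent.H446.AP7.power L.m p P (fun j => (∏ c, lin (l j c)) ^ L.m j) =
      ∏ j ∈ P, L.value z j ^ ((p - 1) / L.m j) := by
    unfold Pool.Agent.H446.AP7.power
    exact Finset.prod_congr rfl fun j _ => by rw [h.1 j]
  rw [h3]
  exact h0

lemma universal_hasse (n r : ℕ) (m d : Fin r → ℕ) (hm : ∀ j, m j = 1 ∨ m j = 2) {p : ℕ} (hp : p.Prime)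
    (hmp : ∀ j, m j ∣ p - 1) : ∃ (K : Type) (_ : Field K) (_ : CharP K p)
      (z : Fin (Fintype.card (Idx n r m d)) → K), (universal n r m d hm).hasse z p ≠ 0 := by
  classical
  have hfact : Fact p.Prime := ⟨hp⟩
  have hch : CharP (AlgebraicClosure (ZMod p)) p :=
    charP_of_injective_algebraMap (algebraMap (ZMod p) (AlgebraicClosure (ZMod p))).injective p
  let a : ((j : Fin r) × Fin (d j)) → AlgebraicClosure (ZMod p) := fun x =>
    Infinite.natEmbedding (AlgebraicClosure (ZMod p)) (Fintype.equivFin ((j : Fin r) × Fin (d j)) x)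
  have ha : Function.Injective a := (Infinite.natEmbedding (AlgebraicClosure (ZMod p))).injective.comp
    (Fin.val_injective.comp (Fintype.equivFin ((j : Fin r) × Fin (d j))).injective)
  let l : (j : Fin r) → Fin (d j) → Fin (n + 1) → AlgebraicClosure (ZMod p) := fun j c i => a ⟨j, c⟩ ^ (i : ℕ)
  obtain ⟨z, hz⟩ := exists_member n r m d hm (fun j => (∏ c, lin (l j c)) ^ m j) fun j => by
    have h1 := (MvPolynomial.IsHomogeneous.prod univ (fun c => lin (l j c)) (fun _ => 1)
      fun c _ => lin_homogeneous _).pow (m j)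
    rw [Finset.sum_const, card_univ, Fintype.card_fin, smul_eq_mul, mul_one, mul_comm] at h1
    exact h1
  refine ⟨AlgebraicClosure (ZMod p), inferInstance, hch, z, hasse_arrangement (L := universal n r m d hm) hp hmp
    (l := l) ⟨hz, fun ρ hρ => ?_⟩⟩
  show (Matrix.vandermonde fun i : Fin (n + 1) => a (ρ i)).det ≠ 0
  exact Matrix.det_vandermonde_ne_zero_iff.2 (ha.comp hρ)

lemma mem_redIdeal_bot {g f : MvPolynomial (Fin s) ℤ} {p : ℕ} (hp : p.Prime)
    (hg : MvPolynomial.map (Int.castRingHom (ZMod p)) g ≠ 0) :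
    f ∈ Pool.Agent.H446.AP13.Jp ⊥ g p ↔ MvPolynomial.map (Int.castRingHom (ZMod p)) f = 0 := by
  have hfact : Fact p.Prime := ⟨hp⟩
  have h2 : (MvPolynomial.C ((p : ℕ) : ℤ) : MvPolynomial (Fin s) ℤ) = ((p : ℕ) : MvPolynomial (Fin s) ℤ) := by
    rw [map_natCast]
  constructor
  · rintro ⟨N, hN⟩
    rw [bot_sup_eq, Ideal.mem_span_singleton, ← h2, MvPolynomial.C_dvd_iff_zmod, map_mul, map_pow] at hN
    exact (mul_eq_zero.1 hN).resolve_left (pow_ne_zero _ hg)
  · intro h
    refine ⟨0, ?_⟩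
    rw [bot_sup_eq, Ideal.mem_span_singleton, ← h2, MvPolynomial.C_dvd_iff_zmod, pow_zero, one_mul]
    exact h

lemma generically_of_member {L : Family s} {g : MvPolynomial (Fin s) ℤ} {p : ℕ} (hp : p.Prime)
    (hg : MvPolynomial.map (Int.castRingHom (ZMod p)) g ≠ 0) {K : Type} [Field K] [CharP K p] {z : Fin s → K}
    (h : L.hasse z p ≠ 0) : L.Generically ⊥ g p := by
  rw [gen_iff]
  refine Pool.Agent.H446.AP13.TE_of_prime (Pool.Agent.H446.AP13.Jp_bot_isPrime hp hg) ⟨_, rfl, fun h1 => h ?_⟩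
  rw [mem_redIdeal_bot hp hg, ← MvPolynomial.C_dvd_iff_zmod] at h1
  obtain ⟨q, hq⟩ := h1
  rw [hasse_eq, hq, map_mul, MvPolynomial.aeval_C, eq_intCast, Int.cast_natCast, CharP.cast_eq_zero, zero_mul]

lemma exists_big {g : MvPolynomial (Fin s) ℤ} (hg : g ≠ 0) : ∃ A : ℕ, ∀ p : ℕ, p.Prime → A < p →
    MvPolynomial.map (Int.castRingHom (ZMod p)) g ≠ 0 := by
  obtain ⟨u, hu⟩ := MvPolynomial.ne_zero_iff.1 hg
  refine ⟨(g.coeff u).natAbs, fun p hp hlt h => ?_⟩
  rw [← MvPolynomial.C_dvd_iff_zmod] at h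
  obtain ⟨q, hq⟩ := h
  have h1 : ((p : ℕ) : ℤ) ∣ g.coeff u := ⟨q.coeff u, by rw [hq, MvPolynomial.coeff_C_mul]⟩
  have h2 := Nat.le_of_dvd (Int.natAbs_pos.2 hu) (Int.natCast_dvd.1 h1)
  omega

lemma badSum_le {L : Family s} {𝔓 : ∀ p, Place p} {ω : Fin s → ℂ} (hω : ∀ i, IsAlgebraic ℚ (ω i))
    (𝔞 : Ideal (MvPolynomial (Fin s) ℤ)) (g : MvPolynomial (Fin s) ℤ) (N : ℕ) :
    L.badSum 𝔓 ω N ≤ L.nonSum 𝔞 g N +
      ∑ p ∈ Pool.Agent.H446.AP13.TEs (Fs L) 𝔞 g N, L.proportion (𝔓 p) ω * (Real.log p / p) := by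
  classical
  have h1 : Pool.Agent.H446.AP13.TEs (Fs L) 𝔞 g N = (Icc 1 N).filter fun p : ℕ => p.Prime ∧ L.Generically 𝔞 g p := by
    ext p
    rw [Pool.Agent.H446.AP13.mem_TEs, mem_filter, mem_Icc, gen_iff]
    constructor
    · rintro ⟨h1, h2, h3⟩
      exact ⟨⟨h1.one_lt.le, h2⟩, h1, h3⟩
    · rintro ⟨⟨-, h1⟩, h2, h3⟩
      exact ⟨h2, h1, h3⟩
  unfold Family.badSum
  rw [h1, ← Finset.sum_filter_add_sum_filter_not _ (fun p => L.Generically 𝔞 g p), Finset.filter_filter,
    Finset.filter_filter, add_comm]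
  refine add_le_add (Finset.sum_le_sum fun p _ => ?_) le_rfl
  exact mul_le_of_le_one_left log_div_nonneg (proportion_le hω)

/-- All algebraic members of bounded height outside of hypersurfaces of small degree have few bad places. -/
def Family.AlmostOrdinary (L : Family s) : Prop :=
  ∃ C : ℕ, ∀ (N : ℕ) (H : ℝ), 1 ≤ N → 0 ≤ H → ∃ R : MvPolynomial (Fin s) ℤ, R ≠ 0 ∧ R.totalDegree ≤ C * N ∧
    ∀ (𝔓 : ∀ p, Place p) (ω : Fin s → ℂ), (∀ i, HeightLE (ω i) H) → MvPolynomial.aeval ω R ≠ 0 →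
      L.badSum 𝔓 ω N ≤ C * Real.sqrt ((H + 1) * (1 + Real.log N))

lemma isVariety_bot : IsVariety (⊥ : Ideal (MvPolynomial (Fin s) ℤ)) :=
  ⟨Ideal.isPrime_bot, fun n hn => by
    rw [Ideal.mem_bot, MvPolynomial.C_eq_zero] at hn
    exact hn⟩

/-- **Theorem.** Let `y_j ^ (m_j) = f_j(ω, x)` be a family with `s` parameters, and let `𝔓_p` be a prime of the ring of
all algebraic integers over `p`, for every prime `p`.
(1) For every irreducible variety `V` of parameters there are `g` which is not zero on `V` and a constant `C` such that for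
all `N ≥ 1` and `H ≥ 0` there is a hypersurface of degree at most `C N` which does not contain `V`, such that
`∑_{p ≤ N} ρ_p(ω) log p / p ≤ ∑ log p / p + C √((H + 1) (1 + log N))`, with the second sum over the primes `p ≤ N` which are
not generically ordinary, for all algebraic points `ω` of `V`, of any degree, with heights at most `H`, outside of this
hypersurface.
(2) For every function `B` the Zariski closure of every set `T` of algebraic points `ω` of any degree, with heights at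
most `H` and with `∑_{p ≤ N} ρ_p(ω) log p / p ≥ B(N)` for all `N ≥ 1`, is a finite union of varieties for which the sum of
`log p / p` over the primes `p ≤ N` which are not generically ordinary is at least `B(N) - C √(1 + log N)` for all `N`: there
is a finite set of such varieties such that every point of `T` lies on one of them, and `T` is Zariski dense on each of
them.
(3) For every irreducible variety `V` of parameters there are `g` which is not zero on `V` and a constant `C` such that for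
all `H, M ≥ 0`: if the algebraic points `ω` of `V`, of any degree, with heights at most `H` and with
`∑_p (1 - ρ_p(ω)) log p / p ≤ M` are Zariski dense on `V`, then the sum of `log p / p` over the somewhere ordinary primes
is at most `C (H + M + 1)`.
(4) The Zariski closure of every set `T` of points as in (3) is a finite union of varieties for which the sum of
`log p / p` over the somewhere ordinary primes is finite, for some `g`. This applies to the points of height at most `H`
for which all places over all primes `p > y` are bad.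
(5) Let `ω` be an algebraic point of the variety of `𝔞` with `g(ω) ≠ 0`. There is a number `c > 0` such that all the places
of `ℚ(ω)` over the primes `p` that do not divide `c` and that are not somewhere ordinary are bad.
(6) If the reduction of `S` modulo the prime `p` is irreducible and reduced, for example if `V` is the whole space and `p`
does not divide `g`, then `p` is generically ordinary if and only if it is somewhere ordinary.
(7) If `p` is a prime and `m_j` divides `p - 1` for all `j`, then the Hasse invariants of the members over a field of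
characteristic `p` which are arrangements are not zero.
(8) Assume that for all primes `p > y` there is a member over a field of characteristic `p` with a nonzero Hasse
invariant. Then there is a constant `C` such that for all `N ≥ 1` and `H ≥ 0` there is a hypersurface of degree at most
`C N` such that `∑_{p ≤ N} ρ_p(ω) log p / p ≤ C √((H + 1) (1 + log N))` for all algebraic points `ω`, of any degree, with
heights at most `H`, outside of this hypersurface.
(9) This is so for the universal families. -/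
theorem result :
    (∀ (s : ℕ) (L : Family s) (𝔞 : Ideal (MvPolynomial (Fin s) ℤ)), IsVariety 𝔞 → ∃ g ∉ 𝔞, ∃ C : ℕ,
      ∀ (N : ℕ) (H : ℝ), 1 ≤ N → 0 ≤ H → ∃ R ∉ 𝔞, R.totalDegree ≤ C * N ∧
        ∀ (𝔓 : ∀ p, Place p) (ω : Fin s → ℂ), (∀ i, HeightLE (ω i) H) → IsZero 𝔞 ω → MvPolynomial.aeval ω R ≠ 0 →
          L.badSum 𝔓 ω N ≤ L.nonSum 𝔞 g N + C * Real.sqrt ((H + 1) * (1 + Real.log N))) ∧
    (∀ (s : ℕ) (L : Family s) (𝔓 : ∀ p, Place p) (H : ℝ) (B : ℕ → ℝ) (T : Set (Fin s → ℂ)), T ⊆ L.ManyBad 𝔓 H B →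
      ∃ S : Set (Ideal (MvPolynomial (Fin s) ℤ)), S.Finite ∧
        (∀ 𝔞 ∈ S, IsVariety 𝔞 ∧ DenseOn T 𝔞 ∧ ∃ g ∉ 𝔞, ∃ C : ℝ, ∀ N : ℕ, 1 ≤ N →
          B N ≤ L.nonSum 𝔞 g N + C * Real.sqrt (1 + Real.log N)) ∧
        ∀ ω ∈ T, ∃ 𝔞 ∈ S, IsZero 𝔞 ω) ∧
    (∀ (s : ℕ) (L : Family s) (𝔞 : Ideal (MvPolynomial (Fin s) ℤ)), IsVariety 𝔞 →
      ∃ g ∉ 𝔞, ∃ C : ℝ, ∀ (𝔓 : ∀ p, Place p) (H M : ℝ), 0 ≤ H → 0 ≤ M → DenseOn (L.AlmostAllBad 𝔓 H M) 𝔞 →
        ∀ N, L.ordSum 𝔞 g N ≤ C * (H + M + 1)) ∧
    ((∀ (s : ℕ) (L : Family s) (𝔓 : ∀ p, Place p) (H M : ℝ) (T : Set (Fin s → ℂ)), T ⊆ L.AlmostAllBad 𝔓 H M →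
      ∃ S : Set (Ideal (MvPolynomial (Fin s) ℤ)), S.Finite ∧
        (∀ 𝔞 ∈ S, IsVariety 𝔞 ∧ DenseOn T 𝔞 ∧ ∃ g ∉ 𝔞, ∃ C : ℝ, ∀ N, L.ordSum 𝔞 g N ≤ C) ∧
        ∀ ω ∈ T, ∃ 𝔞 ∈ S, IsZero 𝔞 ω) ∧
      ∀ (s : ℕ) (L : Family s) (𝔓 : ∀ p, Place p) (H y : ℝ), ∃ M, L.AllBad 𝔓 H y ⊆ L.AlmostAllBad 𝔓 H M) ∧
    (∀ (s : ℕ) (L : Family s) (𝔞 : Ideal (MvPolynomial (Fin s) ℤ)) (g : MvPolynomial (Fin s) ℤ) (ω : Fin s → ℂ),
      (∀ i, IsAlgebraic ℚ (ω i)) → IsZero 𝔞 ω → MvPolynomial.aeval ω g ≠ 0 →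
        ∃ c : ℕ, 0 < c ∧ ∀ p : ℕ, p.Prime → ¬ p ∣ c → ¬ L.Somewhere 𝔞 g p →
          ∀ (𝔓 : Place p) (t : fieldOf ω →ₐ[ℚ] ℂ), L.Bad 𝔓 (conjugate ω t)) ∧
    (∀ (s : ℕ) (L : Family s) (𝔞 : Ideal (MvPolynomial (Fin s) ℤ)) (g : MvPolynomial (Fin s) ℤ) (p : ℕ),
      p.Prime → ((redIdeal 𝔞 g p).IsPrime ∨ 𝔞 = ⊥ ∧ ¬ ((p : ℕ) : MvPolynomial (Fin s) ℤ) ∣ g) →
        (L.Generically 𝔞 g p ↔ L.Somewhere 𝔞 g p)) ∧
    (∀ (s : ℕ) (L : Family s) (p : ℕ), p.Prime → (∀ j, L.m j ∣ p - 1) → ∀ (K : Type) [Field K] [CharP K p]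
      (z : Fin s → K) (l : (j : Fin L.r) → Fin (L.d j) → Fin (L.n + 1) → K), L.IsArrangement z l → L.hasse z p ≠ 0) ∧
    (∀ (s : ℕ) (L : Family s) (y : ℝ), (∀ p : ℕ, p.Prime → y < p → ∃ (K : Type) (_ : Field K) (_ : CharP K p)
      (z : Fin s → K), L.hasse z p ≠ 0) → L.AlmostOrdinary) ∧
    ∀ (n r : ℕ) (m d : Fin r → ℕ) (hm : ∀ j, m j = 1 ∨ m j = 2), (universal n r m d hm).AlmostOrdinary := by
  classical
  have zero : ∀ (s : ℕ) (L : Family s) (𝔞 : Ideal (MvPolynomial (Fin s) ℤ)), IsVariety 𝔞 → ∃ g ∉ 𝔞, ∃ C : ℕ,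
      ∀ (N : ℕ) (H : ℝ), 1 ≤ N → 0 ≤ H → ∃ R ∉ 𝔞, R.totalDegree ≤ C * N ∧
        ∀ (𝔓 : ∀ p, Place p) (ω : Fin s → ℂ), (∀ i, HeightLE (ω i) H) → IsZero 𝔞 ω → MvPolynomial.aeval ω R ≠ 0 →
          L.badSum 𝔓 ω N ≤ L.nonSum 𝔞 g N + C * Real.sqrt ((H + 1) * (1 + Real.log N)) := by
    intro s L 𝔞 h𝔞
    obtain ⟨c, hc⟩ := Pool.Agent.H446.AP14.hasse_degree L.m L.d L.f
    obtain ⟨g, hg, K, -, h2⟩ := Pool.Agent.H446.AP13.sqrtT (𝓕 := Fs L)
      (fun p F hF => by rw [Set.mem_singleton_iff.1 hF]; exact hc p) h𝔞.1 h𝔞.2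
    have hO : ∀ 𝔓 : ∀ p, Place p, ∀ p : ℕ, p.Prime → Pool.Agent.H446.AP6.IsPl p (OA (𝔓 p).ideal) ∧
        ∀ ω, L.Bad (𝔓 p) ω → Pool.Agent.H446.AP11.GdO (Fs L) p (OA (𝔓 p).ideal) ω := by
      intro 𝔓 p hp
      refine ⟨Pool.Agent.H446.AP6.isPl_OA hp ((𝔓 p).mem hp), fun ω hω => ?_⟩
      obtain ⟨h3, h4⟩ := (bad_iff L (𝔓 p) ω).1 hω
      refine ⟨fun i => Pool.Agent.H446.AP11.OKv_le _ _ (h3 i), fun F hF => ?_⟩
      obtain ⟨y, hy, hy'⟩ := h4 F hF
      exact ⟨y, Pool.Agent.H446.AP11.OKv_le _ _ hy, hy'⟩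
    refine ⟨g, hg, K, fun N H hN hH => ?_⟩
    obtain ⟨R, hR, hdeg, hall⟩ := h2 N H hN hH
    refine ⟨R, hR, hdeg, fun 𝔓 ω hω hz hne => ?_⟩
    have h3 := hall (fun p => L.Bad (𝔓 p)) (fun p => OA (𝔓 p).ideal) ω (hO 𝔓) (fun i => height_iff.1 (hω i)) hz hne
    have h4 := badSum_le (L := L) (𝔓 := 𝔓) (fun i => algebraic_of_height (hω i)) 𝔞 g N
    have h5 : ∑ p ∈ Pool.Agent.H446.AP13.TEs (Fs L) 𝔞 g N, L.proportion (𝔓 p) ω * (Real.log p / p) ≤
        K * Real.sqrt ((H + 1) * (1 + Real.log N)) := h3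
    linarith
  have one : ∀ (s : ℕ) (L : Family s) (𝔞 : Ideal (MvPolynomial (Fin s) ℤ)), IsVariety 𝔞 →
      ∃ g ∉ 𝔞, ∃ C : ℝ, ∀ (𝔓 : ∀ p, Place p) (H M : ℝ), 0 ≤ H → 0 ≤ M → DenseOn (L.AlmostAllBad 𝔓 H M) 𝔞 →
        ∀ N, L.ordSum 𝔞 g N ≤ C * (H + M + 1) := by
    intro s L 𝔞 h𝔞
    obtain ⟨c, hc⟩ := Pool.Agent.H446.AP14.hasse_degree L.m L.d L.f
    obtain ⟨g, hg, C, hC⟩ := Pool.Agent.H446.AP11.denseP (𝓕 := Fs L)
      (fun p F hF => by rw [Set.mem_singleton_iff.1 hF]; exact hc p) h𝔞.1 h𝔞.2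
    refine ⟨g, hg, C, fun 𝔓 H M hH hM hd N => ?_⟩
    refine hC H M hH hM (fun p => L.Bad (𝔓 p)) (fun p => OA (𝔓 p).ideal) (fun p hp => ?_) (fun R hR => ?_) _
      fun p hp => ?_
    · refine ⟨Pool.Agent.H446.AP6.isPl_OA hp ((𝔓 p).mem hp), fun ω hω => ?_⟩
      obtain ⟨h3, h4⟩ := (bad_iff L (𝔓 p) ω).1 hω
      refine ⟨fun i => Pool.Agent.H446.AP11.OKv_le _ _ (h3 i), fun F hF => ?_⟩
      obtain ⟨y, hy, hy'⟩ := h4 F hF
      exact ⟨y, Pool.Agent.H446.AP11.OKv_le _ _ hy, hy'⟩
    · refine hd R fun ω hω hz => hR ω ⟨fun i => height_iff.1 (hω.1 i), fun Q hQ => le_trans ?_ (hω.2 (Q.sup id))⟩ hz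
      refine Finset.sum_le_sum_of_subset_of_nonneg (fun p hp => ?_) fun p _ _ => ?_
      · rw [mem_filter, mem_Icc]
        exact ⟨⟨(hQ p hp).one_lt.le, Finset.le_sup (f := id) hp⟩, hQ p hp⟩
      · exact mul_nonneg (sub_nonneg.2 (proportion_le fun i => algebraic_of_height (hω.1 i))) log_div_nonneg
    · rw [mem_filter] at hp
      exact ⟨hp.2.1, (some_iff L 𝔞 g p).1 hp.2.2⟩
  have hheight : ∀ {z : ℂ} {H : ℝ}, HeightLE z H → HeightLE z |H| := by
    rintro z H ⟨P, h1, h2, h3, h4, h5⟩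
    exact ⟨P, h1, h2, h3, h4, h5.trans (Real.exp_le_exp.2 (mul_le_mul_of_nonneg_left (le_abs_self _)
      (Nat.cast_nonneg _)))⟩
  have eight : ∀ (s : ℕ) (L : Family s) (y : ℝ), (∀ p : ℕ, p.Prime → y < p → ∃ (K : Type) (_ : Field K)
      (_ : CharP K p) (z : Fin s → K), L.hasse z p ≠ 0) → L.AlmostOrdinary := by
    intro s L y hy
    obtain ⟨g, hg, C, hC⟩ := zero s L ⊥ isVariety_bot
    have hg0 : g ≠ 0 := fun h => hg (Ideal.mem_bot.2 h)
    obtain ⟨A, hA⟩ := exists_big hg0
    set Y : ℕ := max ⌊y⌋₊ A with hY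
    set c₀ : ℝ := ∑ p ∈ Icc 1 Y, Real.log p / p with hc₀
    have hc₀0 : 0 ≤ c₀ := Finset.sum_nonneg fun p _ => log_div_nonneg
    have hnon : ∀ N, L.nonSum ⊥ g N ≤ c₀ := by
      intro N
      refine Finset.sum_le_sum_of_subset_of_nonneg (fun p hp => ?_) fun p _ _ => log_div_nonneg
      rw [mem_filter, mem_Icc] at hp
      obtain ⟨⟨h1, -⟩, h2, h3⟩ := hp
      rw [mem_Icc]
      refine ⟨h1, ?_⟩
      by_contra h4
      push Not at h4
      apply h3
      have h5 : y < p := (Nat.lt_floor_add_one y).trans_le (by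
        have h6 : ⌊y⌋₊ + 1 ≤ p := by
          have := le_max_left ⌊y⌋₊ A
          omega
        exact_mod_cast h6)
      obtain ⟨K, i1, i2, z, hz⟩ := hy p h2 h5
      refine generically_of_member h2 (hA p h2 ?_) hz
      have := le_max_right ⌊y⌋₊ A
      omega
    refine ⟨C + ⌈c₀⌉₊, fun N H hN hH => ?_⟩
    obtain ⟨R, hR, hdeg, hall⟩ := hC N H hN hH
    refine ⟨R, fun h => hR (Ideal.mem_bot.2 h), hdeg.trans (Nat.mul_le_mul_right _ (Nat.le_add_right _ _)),
      fun 𝔓 ω hω hne => ?_⟩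
    have h1 := hall 𝔓 ω hω (fun f hf => by rw [Ideal.mem_bot.1 hf, map_zero]) hne
    have hN' : (1 : ℝ) ≤ N := by exact_mod_cast hN
    have h2 : 1 ≤ Real.sqrt ((H + 1) * (1 + Real.log N)) := by
      rw [Real.one_le_sqrt]
      nlinarith [Real.log_nonneg hN']
    have h3 : c₀ ≤ ⌈c₀⌉₊ * Real.sqrt ((H + 1) * (1 + Real.log N)) :=
      (Nat.le_ceil c₀).trans (le_mul_of_one_le_right (Nat.cast_nonneg _) h2)
    have h4 := hnon N
    push_cast
    rw [add_mul]
    linarith
  refine ⟨zero, fun s L 𝔓 H B T hT => ?_, one, ⟨fun s L 𝔓 H M T hT => ?_, fun s L 𝔓 H y => ?_⟩,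
    fun s L 𝔞 g ω hω hz hg => ?_, fun s L 𝔞 g p hp h => ?_, fun s L p hp hm K _ _ z l h => hasse_arrangement hp hm h,
    eight, fun n r m d hm => eight _ _ 2 fun p hp hlt => ?_⟩
  · obtain ⟨S, hS1, hS2, hS3⟩ := Pool.Agent.H446.AP10.closure_finite T
    refine ⟨S, hS1, fun 𝔞 h𝔞 => ?_, hS3⟩
    obtain ⟨hp, ⟨ω, hω, hz⟩, h0, hd⟩ := hS2 𝔞 h𝔞
    have hd' : DenseOn T 𝔞 := hd
    obtain ⟨g, hg, C, hC⟩ := zero s L 𝔞 ⟨hp, h0⟩
    refine ⟨⟨hp, h0⟩, hd', g, hg, C * Real.sqrt (|H| + 1), fun N hN => ?_⟩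
    obtain ⟨R, hR, -, hall⟩ := hC N |H| hN (abs_nonneg _)
    obtain ⟨ω', hω', hz', hne⟩ : ∃ ω' ∈ T, IsZero 𝔞 ω' ∧ MvPolynomial.aeval ω' R ≠ 0 := by
      by_contra hcon
      push Not at hcon
      exact hR (hd' R hcon)
    have h1 := (hT hω').2 N hN
    have h2 := hall 𝔓 ω' (fun i => hheight ((hT hω').1 i)) hz' hne
    rw [Real.sqrt_mul (by positivity), ← mul_assoc] at h2
    exact h1.trans h2
  · obtain ⟨S, hS1, hS2, hS3⟩ := Pool.Agent.H446.AP10.closure_finite T
    refine ⟨S, hS1, fun 𝔞 h𝔞 => ?_, hS3⟩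
    obtain ⟨hp, ⟨ω, hω, hz⟩, h0, hd⟩ := hS2 𝔞 h𝔞
    have hd' : DenseOn T 𝔞 := hd
    obtain ⟨g, hg, C, hC⟩ := one s L 𝔞 ⟨hp, h0⟩
    exact ⟨⟨hp, h0⟩, hd', g, hg, _, hC 𝔓 |H| |M| (abs_nonneg _) (abs_nonneg _) fun R hR =>
      hd' R fun ω hω hz => hR ω ⟨fun i => hheight ((hT hω).1 i), fun N => ((hT hω).2 N).trans (le_abs_self _)⟩ hz⟩
  · refine ⟨∑ p ∈ (Icc 1 ⌊y⌋₊).filter Nat.Prime, Real.log p / p, ?_⟩
    rintro ω ⟨h1, h2⟩
    have halg : ∀ i, IsAlgebraic ℚ (ω i) := fun i => algebraic_of_height (h1 i)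
    have hfd : FiniteDimensional ℚ (fieldOf ω) := Pool.Agent.H446.AP11.finite_Kf halg
    refine ⟨h1, fun N => ?_⟩
    have h3 : ∀ p ∈ (Icc 1 N).filter Nat.Prime, p ∉ (Icc 1 ⌊y⌋₊).filter Nat.Prime →
        (1 - L.proportion (𝔓 p) ω) * (Real.log p / p) = 0 := by
      intro p hp hp'
      rw [mem_filter, mem_Icc] at hp hp'
      have h4 : y < p := by
        have h5 : ⌊y⌋₊ < p := by
          by_contra h6
          push Not at h6
          exact hp' ⟨⟨hp.1.1, h6⟩, hp.2⟩
        exact (Nat.lt_floor_add_one y).trans_le (by exact_mod_cast h5)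
      have h5 : L.proportion (𝔓 p) ω = 1 := by
        have hN0 : 0 < Module.finrank ℚ (fieldOf ω) := Module.finrank_pos
        unfold Family.proportion
        rw [Nat.card_eq_fintype_card, Fintype.card_subtype, Finset.filter_true_of_mem fun t _ => h2 p hp.2 h4 t,
          Finset.card_univ, AlgHom.card, div_self]
        exact_mod_cast hN0.ne'
      rw [h5, sub_self, zero_mul]
    calc ∑ p ∈ (Icc 1 N).filter Nat.Prime, (1 - L.proportion (𝔓 p) ω) * (Real.log p / p) ≤
        ∑ p ∈ (Icc 1 N).filter Nat.Prime, (if p ∈ (Icc 1 ⌊y⌋₊).filter Nat.Prime then Real.log p / p else 0) := by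
          refine Finset.sum_le_sum fun p hp => ?_
          split_ifs with h4
          · refine mul_le_of_le_one_left log_div_nonneg ?_
            have h5 : 0 ≤ L.proportion (𝔓 p) ω := div_nonneg (Nat.cast_nonneg _) (Nat.cast_nonneg _)
            linarith
          · exact (h3 p hp h4).le
      _ = ∑ p ∈ (Icc 1 N).filter Nat.Prime ∩ (Icc 1 ⌊y⌋₊).filter Nat.Prime, Real.log p / p := by
          rw [Finset.sum_ite_mem]
      _ ≤ ∑ p ∈ (Icc 1 ⌊y⌋₊).filter Nat.Prime, Real.log p / p :=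
          Finset.sum_le_sum_of_subset_of_nonneg Finset.inter_subset_right fun p _ _ => log_div_nonneg
  · obtain ⟨c, hc, h1⟩ := Pool.Agent.H446.AP11.convP (𝓕 := Fs L) hω hz hg
    refine ⟨c, hc, fun p hp hpc hsome 𝔓 t => ?_⟩
    obtain ⟨hfact, h2, h3⟩ := h1 p hp hpc (fun h => hsome ((some_iff L 𝔞 g p).2 h)) t
    have hp0 : (p : ℂ) ≠ 0 := by exact_mod_cast hp.ne_zero
    rw [bad_iff]
    have hmem : ∀ i, conjugate ω t i ∈ fieldOf (conjugate ω t) := fun i => IntermediateField.subset_adjoin _ _ ⟨i, rfl⟩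
    refine ⟨fun i => Subring.mem_inf.2 ⟨Pool.Agent.H446.AP11.pInt_le (𝔓.mem hp) (h2 i), hmem i⟩, fun F hF => ?_⟩
    obtain ⟨y, hy, hy'⟩ := h3 F hF
    refine ⟨y, Subring.mem_inf.2 ⟨Pool.Agent.H446.AP11.pInt_le (𝔓.mem hp) hy, ?_⟩, hy'⟩
    have h4 : y = MvPolynomial.aeval (conjugate ω t) F / p := by
      have h5 : MvPolynomial.aeval (conjugate ω t) F = p * y := hy'
      rw [h5, mul_div_cancel_left₀ _ hp0]
    rw [h4]
    show MvPolynomial.aeval (conjugate ω t) F / p ∈ fieldOf (conjugate ω t)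
    refine div_mem ?_ (natCast_mem _ p)
    rw [← Pool.Agent.H446.AP11.aeval_gn]
    exact (MvPolynomial.aeval (Pool.Agent.H446.AP11.gn (conjugate ω t)) F).2
  · have hfact : Fact p.Prime := ⟨hp⟩
    rw [gen_iff, some_iff]
    refine Pool.Agent.H446.AP13.TE_iff_Non hp ?_
    rcases h with h | ⟨rfl, h⟩
    · exact h
    · refine Pool.Agent.H446.AP13.Jp_bot_isPrime hp fun h1 => h ?_
      rw [← MvPolynomial.C_dvd_iff_zmod] at h1
      have h2 : (MvPolynomial.C ((p : ℕ) : ℤ) : MvPolynomial (Fin s) ℤ) = ((p : ℕ) : MvPolynomial (Fin s) ℤ) := by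
        rw [map_natCast]
      rwa [h2] at h1
  · refine universal_hasse n r m d hm hp fun j => ?_
    have h2 : 2 < p := by exact_mod_cast hlt
    rcases hm j with h | h
    · rw [h]
      exact one_dvd _
    · rw [h]
      obtain ⟨k, hk⟩ := hp.odd_of_ne_two (by omega)
      exact ⟨k, by omega⟩

end Pool.Agent.Results.MP_adc574_ag.BoundedHeightMembers
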