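import Pool.Agent.H446.AP7.Fam

/-!
# Non-ordinary members of one-parameter families at algebraic parameters of all degrees

We look at one-parameter families over `ℤ[ω]` of varieties

  `X_ω : y_j ^ (m_j) = f_j(ω, x)`, `j = 1, …, r`, `m_j = 1` or `m_j = 2`,

over the projective space of dimension `n`, where `f_j` is a form of degree `m_j d_j` in `x` and has degree at most `k_j` in
`ω`: complete intersections (`m_j = 1` for all `j`), double covers of projective spaces (`r = 1`, `m_1 = 2`), for example
all hyperelliptic curves (`n = 1`), and their combinations. The parameter `ω` is an algebraic number of any degree.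

**Ordinary.** For a set `P` of indices let the Hasse–Witt matrix of the fibre in characteristic `p` consist of the
coefficients of `x ^ (p w - w')` in `∏_{j ∈ P} f_j ^ ((p - 1) / m_j)`, `w, w'` running through the exponents with positive
entries and sum `∑_{j ∈ P} d_j`. It is the matrix of the Frobenius on the top cohomology of `O(- ∑_{j ∈ P} d_j)`. If all
these matrices are invertible then the Frobenius is bijective on the cohomology of the structure sheaf of the fibre, and
for `r = 1` the converse is true; for curves this means that the Jacobian is ordinary, and for curves and surfaces it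
means ordinarity in the sense of Bloch and Kato. So a place of non-ordinary reduction (in this sense) is a place where
one of the determinants vanishes. (For `p = 2` and `m_j = 2` the matrix has no such meaning; take `y ≥ 2` in the
theorem for double covers.)

**Places.** The places over `p` of `ℚ(ω)` are counted with their local degrees, so that their number is the degree of `ω`.
If we fix a prime ideal `𝔓` of the ring of all algebraic integers over `p`, then they correspond to the conjugates `ω'` of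
`ω`, and we count the conjugates at which the place of `ℚ(ω')` below `𝔓` is bad: `ω'` is integral at the place and one of
the determinants vanishes, modulo `p`, that is, in the residue field if the place is not ramified.

**Theorem.** Let `κ = ∑_P C(∑_{j ∈ P} d_j - 1, n) ∑_{j ∈ P} k_j / m_j`, for a single hypersurface or double cover of
geometric genus `h` this is `h k / m`. The constants in the following depend only on an upper bound for `κ`, not on `n`,
the equations, or the family. Assume that in the characteristics `p` under consideration some member is ordinary.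

* `∑_{y < p ≤ N} ρ_p(ω) ^ 2 log p / p ≤ 2 κ H + C` for all `ω` of degree `N` and logarithmic height `H`, where `ρ_p(ω)` is
  the proportion of the bad places over `p`;
* the parameters `ω` of height at most `H`, of all degrees together, for which the bad places make up a proportion `β` of
  all places over the primes `y < p ≤ x = C y exp (2 κ H / β ^ 2)` (with the weights `log p / p`, up to a bounded error),
  are finitely many, and with their conjugates they are at most `x`;
* in particular the `ω` of height at most `H`, such that *all* places over *all* primes `p > y` are bad, are at most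
  `C y exp (2 κ H)`. The parameters for which the reductions are non-ordinary at almost all places, that is the
  counterexamples to the question in the family, are the union of these sets for `y = 1, 2, 3, …`.

The assumption is satisfied at `p` if the member at infinity is ordinary over a field of characteristic `p`, and this is
so (Hasse–Witt matrices of arrangements are invertible) if it is an arrangement in general position: `f_j` is there the
power with exponent `m_j` of a product of `d_j` linear forms, any `n + 1` of which (for all `j` together) are independent.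
For example it is satisfied at all primes for the pencils `g + ω x_0 ⋯ x_n` of Calabi–Yau hypersurfaces, with an
arbitrary form `g` of degree `n + 1`, and `κ = 1`.
-/

set_option autoImplicit false

namespace Pool.Agent.Results.MP_adc574_ag.NonOrdinaryMembers

open Polynomial Finset

open Pool.Agent.H446.AP6 (ZZ OA OK)
open Pool.Agent.H446.AP7 (hasseWitt power NonOrd value)
open Pool.Agent.Y162.HW (idx topE lin)

/-- `P` is the minimal polynomial over `ℤ` of an algebraic number `ω`, and of its conjugates. -/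
def IsMinpoly (P : ℤ[X]) : Prop := Irreducible P ∧ 0 < P.natDegree ∧ 0 < P.leadingCoeff

/-- The absolute logarithmic height of the roots of `P` is at most `H`. -/
def HeightLE (P : ℤ[X]) (H : ℝ) : Prop :=
  (P.map (Int.castRingHom ℂ)).mahlerMeasure ≤ Real.exp (P.natDegree * H)

/-- A prime ideal over `p` of the ring `ZZ` of the algebraic integers in `ℂ` (if `p` is not a prime, any prime ideal). -/
structure Place (p : ℕ) where
  ideal : Ideal ZZ
  isPrime : ideal.IsPrime
  mem : p.Prime → ((p : ℕ) : ZZ) ∈ ideal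

attribute [instance] Place.isPrime

/-- Every prime has a place. -/
lemma nonempty_place (p : ℕ) : Nonempty (Place p) := by
  by_cases hp : p.Prime
  · have h1 : ¬ IsUnit ((p : ℕ) : ZZ) := by
      intro h
      obtain ⟨u, hu⟩ := h.exists_right_inv
      have h2 : ((1 : ℤ) : ℂ) = p * ((u : ZZ) : ℂ) := by
        have h3 := congrArg (fun z : ZZ => (z : ℂ)) hu
        push_cast at h3 ⊢
        exact h3.symm
      have := Fact.mk hp
      have h3 := (Pool.Agent.H446.AP6.isPl_pInt p).dvd 1 u ((Pool.Agent.H446.AP6.isPl_pInt p).int _ u.2) h2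
      exact hp.one_lt.ne' (by exact_mod_cast Int.eq_one_of_dvd_one (Int.natCast_nonneg p) h3)
    obtain ⟨𝔓, h𝔓, hm⟩ := exists_max_ideal_of_mem_nonunits h1
    exact ⟨⟨𝔓, h𝔓.isPrime, fun _ => hm⟩⟩
  · exact ⟨⟨⊥, Ideal.isPrime_bot, fun h => absurd h hp⟩⟩

/-- The local ring of the field `ℚ(ω)` at a place: the elements which are quotients of algebraic integers with a
denominator outside the ideal, see `mem_local`. -/
noncomputable abbrev Place.local {p : ℕ} (𝔓 : Place p) (ω : ℂ) : Subring ℂ := OK 𝔓.ideal ω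

lemma mem_local {p : ℕ} (𝔓 : Place p) (ω z : ℂ) : z ∈ 𝔓.local ω ↔
    (∃ s : ZZ, s ∉ 𝔓.ideal ∧ IsIntegral ℤ ((s : ℂ) * z)) ∧ z ∈ IntermediateField.adjoin ℚ {ω} :=
  Subring.mem_inf

/-- A family `y_j ^ (m_j) = f_j(ω, x)` over the projective space of dimension `n`, `f_j` a form of degree `m_j d_j` in `x`
and of degree at most `k_j` in the parameter `ω`. -/
structure Family where
  n : ℕ
  r : ℕ
  m : Fin r → ℕ
  d : Fin r → ℕ
  k : Fin r → ℕ
  f : Fin r → MvPolynomial (Fin (n + 1)) ℤ[X]
  m_eq : ∀ j, m j = 1 ∨ m j = 2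
  homogeneous : ∀ j, (f j).IsHomogeneous (m j * d j)
  degree_le : ∀ j u, ((f j).coeff u).natDegree ≤ k j

/-- `κ = ∑_P C(∑_{j ∈ P} d_j - 1, n) ∑_{j ∈ P} k_j / m_j`: the number of the exponents with positive entries and sum
`∑_{j ∈ P} d_j`, times the degree in the parameter of `∏_{j ∈ P} f_j ^ (1 / m_j)`. -/
noncomputable def Family.slope (L : Family) : ℝ :=
  ∑ P : Finset (Fin L.r), ((∑ j ∈ P, L.d j - 1).choose L.n : ℝ) * ∑ j ∈ P, (L.k j : ℝ) / L.m j

/-- The member of the family at an element `c` of a ring of characteristic `p` is not ordinary: the determinant of the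
matrix of the coefficients of `x ^ (p w - w')` in `∏_{j ∈ P} f_j(c, x) ^ ((p - 1) / m_j)` is zero for some `P`, where
`w`, `w'` are the exponents with positive entries and sum `∑_{j ∈ P} d_j`. -/
def Family.NonOrdinary (L : Family) {R : Type} [CommRing R] (c : R) (p : ℕ) : Prop :=
  ∃ (P : Finset (Fin L.r)) (e : ℕ), ∑ j ∈ P, L.d j = e + L.n + 1 ∧
    (hasseWitt L.n e p (∏ j ∈ P, value c (L.f j) ^ ((p - 1) / L.m j))).det = 0

/-- The place of `ℚ(ω)` below `𝔓` is bad: `ω` is integral at the place, and the member at `ω` is not ordinary over the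
local ring modulo `p` (which is the residue field if the place is not ramified). -/
def Family.Bad (L : Family) {p : ℕ} (𝔓 : Place p) (ω : ℂ) : Prop :=
  ∃ h : ω ∈ 𝔓.local ω, L.NonOrdinary (Ideal.Quotient.mk (Ideal.span {((p : ℕ) : 𝔓.local ω)}) ⟨ω, h⟩) p

/-- Some member of the family over a field of characteristic `p` is ordinary. -/
def Family.Regular (L : Family) (p : ℕ) : Prop :=
  ∃ (K : Type) (_ : Field K) (_ : CharP K p) (c : K), ¬ L.NonOrdinary c p

open Classical in
/-- The number of the bad places of an algebraic number with the minimal polynomial `P`, counted with their local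
degrees: the number of the conjugates `ω` for which the place of `ℚ(ω)` below `𝔓` is bad. -/
noncomputable def Family.badPlaces (L : Family) {p : ℕ} (𝔓 : Place p) (P : ℤ[X]) : ℕ :=
  ((P.map (Int.castRingHom ℂ)).roots.filter (L.Bad 𝔓)).card

/-- The proportion of the bad places, counted with their local degrees. -/
noncomputable def Family.proportion (L : Family) {p : ℕ} (𝔓 : Place p) (P : ℤ[X]) : ℝ :=
  L.badPlaces 𝔓 P / P.natDegree

/-- The primes `y < p ≤ x`. -/
noncomputable def primesIn (y x : ℝ) : Finset ℕ := (Icc 1 ⌊x⌋₊).filter fun p : ℕ => p.Prime ∧ y < p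

/-- The logarithm of the absolute value of the resultant of `F` and `F'`. -/
noncomputable def logDisc (F : ℤ[X]) : ℝ :=
  Real.log |((resultant F (derivative F) F.natDegree (F.natDegree - 1) : ℤ) : ℝ)|

/-- The algebraic numbers (up to conjugation) of logarithmic height at most `H` for which the sum of
`(1 - ρ_p) log p / p` over the primes `y < p ≤ x`, `ρ_p` the proportion of the bad places over `p`, is at most
`(1 - β) log (x / y) + M`. There is no condition on their degree. -/
def Family.Few (L : Family) (𝔓 : ∀ p, Place p) (β M y x H : ℝ) : Set ℤ[X] :=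
  {P | IsMinpoly P ∧ HeightLE P H ∧
    ∑ p ∈ primesIn y x, (1 - L.proportion (𝔓 p) P) * (Real.log p / p) ≤ (1 - β) * Real.log (x / y) + M}

/-- The algebraic numbers (up to conjugation) of logarithmic height at most `H`, such that all places over all primes
`p > y` are bad. There is no condition on their degree. -/
def Family.AllBad (L : Family) (𝔓 : ∀ p, Place p) (y H : ℝ) : Set ℤ[X] :=
  {P | IsMinpoly P ∧ HeightLE P H ∧ ∀ p : ℕ, p.Prime → y < p → L.badPlaces (𝔓 p) P = P.natDegree}

/-- Over the field `K` of characteristic `p`, the member at infinity is the arrangement of the linear forms `l j c` (the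
form number `j` is the product of the `l j c`, to the power `m_j`), any `n + 1` of which are linearly independent. -/
def Family.ArrangementAtInfinity (L : Family) (K : Type) [Field K]
    (l : (j : Fin L.r) → Fin (L.d j) → Fin (L.n + 1) → K) : Prop :=
  (∀ j u, MvPolynomial.coeff u ((∏ c, lin (l j c)) ^ L.m j) = ((((L.f j).coeff u).coeff (L.k j) : ℤ) : K)) ∧
  ∀ ρ : Fin (L.n + 1) → (j : Fin L.r) × Fin (L.d j), Function.Injective ρ →
    (Matrix.of fun i => l (ρ i).1 (ρ i).2).det ≠ 0

/-- The pencil `g + ω x_0 ⋯ x_n` of Calabi–Yau hypersurfaces. -/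
noncomputable def pencil (n : ℕ) (g : MvPolynomial (Fin (n + 1)) ℤ) (hg : g.IsHomogeneous (n + 1)) : Family where
  n := n
  r := 1
  m := fun _ => 1
  d := fun _ => n + 1
  k := fun _ => 1
  f := fun _ => MvPolynomial.map C g + MvPolynomial.C X * ∏ i, MvPolynomial.X i
  m_eq := fun _ => Or.inl rfl
  homogeneous := fun _ => by
    rw [one_mul]
    refine (hg.map _).add ?_
    have h1 := (MvPolynomial.isHomogeneous_C (Fin (n + 1)) (X : ℤ[X])).mul
      (MvPolynomial.IsHomogeneous.prod univ (fun i : Fin (n + 1) => (MvPolynomial.X i : MvPolynomial (Fin (n + 1)) ℤ[X]))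
        (fun _ => 1) fun i _ => MvPolynomial.isHomogeneous_X _ i)
    simpa using h1
  degree_le := fun _ u => by
    classical
    rw [MvPolynomial.coeff_add, MvPolynomial.coeff_map, MvPolynomial.coeff_C_mul]
    have h1 : (∏ i, (MvPolynomial.X i : MvPolynomial (Fin (n + 1)) ℤ[X])) =
        MvPolynomial.monomial (∑ i, Finsupp.single i 1) 1 := by
      rw [MvPolynomial.monomial_sum_one]
      rfl
    rw [h1, MvPolynomial.coeff_monomial]
    refine natDegree_add_le_of_degree_le ?_ ?_
    · rw [natDegree_C]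
      exact Nat.zero_le _
    · split_ifs
      · rw [mul_one]
        exact natDegree_X_le
      · rw [mul_zero]
        exact Nat.zero_le _

/-! ### Translation -/

lemma nonOrdinary_iff (L : Family) {R : Type} [CommRing R] (c : R) (p : ℕ) :
    NonOrd L.m L.d p (fun j => value c (L.f j)) ↔ L.NonOrdinary c p := Iff.rfl

lemma regular_iff (L : Family) (p : ℕ) : Pool.Agent.H446.AP7.RegH L.m L.d L.f p ↔ L.Regular p := Iff.rfl

lemma test {κ : ℝ} (L : Family) (hκ : L.slope ≤ κ) {p : ℕ} (hp : p.Prime) (𝔓 : Place p) (h : L.Regular p) :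
    Pool.Agent.H446.AP6.TestR κ 0 (L.Bad 𝔓) p :=
  Pool.Agent.H446.AP7.testR_hw L.degree_le hκ hp (𝔓.mem hp) ((regular_iff L p).2 h)

lemma mem_primesIn {y x : ℝ} (hx : 0 ≤ x) {p : ℕ} : p ∈ primesIn y x ↔ p.Prime ∧ y < p ∧ (p : ℝ) ≤ x := by
  rw [primesIn, mem_filter, mem_Icc, Nat.le_floor_iff hx]
  constructor
  · rintro ⟨⟨-, h3⟩, h1, h2⟩
    exact ⟨h1, h2, h3⟩
  · rintro ⟨h1, h2, h3⟩
    exact ⟨⟨h1.one_lt.le, h3⟩, h1, h2⟩

lemma mem_prs {y x : ℝ} (hx : 0 ≤ x) {p : ℕ} :
    p ∈ Pool.Agent.H446.AP2.prs y x ↔ p.Prime ∧ y < p ∧ (p : ℝ) ≤ x := by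
  rw [Pool.Agent.H446.AP2.prs, mem_filter, Pool.Agent.H446.AP.mem_pr hx]
  tauto

lemma prs_eq {y x : ℝ} (hx : 0 ≤ x) : Pool.Agent.H446.AP2.prs y x = primesIn y x := by
  ext p
  rw [mem_prs hx, mem_primesIn hx]

lemma log_mm_le {P : ℤ[X]} (hP : IsMinpoly P) {H : ℝ} (h : HeightLE P H) :
    Real.log (Pool.Agent.H446.AP.mm P) ≤ P.natDegree * H := by
  have h1 := Pool.Agent.H446.AP.one_le_mm hP.1.ne_zero
  have h2 := Real.log_le_log (by linarith) (show Pool.Agent.H446.AP.mm P ≤ _ from h)
  rwa [Real.log_exp] at h2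

lemma lin_single {R : Type} [CommRing R] {n : ℕ} (c : Fin (n + 1)) :
    lin (Pi.single c (1 : R)) = (MvPolynomial.X c : MvPolynomial (Fin (n + 1)) R) := by
  unfold lin
  rw [Finset.sum_eq_single c]
  · rw [Pi.single_eq_same, MvPolynomial.C_1, one_mul]
  · intro b _ hb
    rw [Pi.single_eq_of_ne hb, MvPolynomial.C_0, zero_mul]
  · intro h
    exact absurd (mem_univ _) h

lemma coeff_prod_X {R : Type} [CommRing R] {n : ℕ} (u : Fin (n + 1) →₀ ℕ) :
    MvPolynomial.coeff u (∏ i, (MvPolynomial.X i : MvPolynomial (Fin (n + 1)) R)) =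
      if ∑ i, Finsupp.single i 1 = u then 1 else 0 := by
  classical
  have h1 : (∏ i, (MvPolynomial.X i : MvPolynomial (Fin (n + 1)) R)) =
      MvPolynomial.monomial (∑ i, Finsupp.single i 1) 1 := by
    rw [MvPolynomial.monomial_sum_one]
    rfl
  rw [h1, MvPolynomial.coeff_monomial]

lemma arr_coeff {K : Type} [Field K] {n : ℕ} (g : MvPolynomial (Fin (n + 1)) ℤ) (u : Fin (n + 1) →₀ ℕ) :
    MvPolynomial.coeff u ((∏ c : Fin (n + 1), lin (Pi.single c (1 : K))) ^ 1) =
      (((MvPolynomial.coeff u (MvPolynomial.map C g + MvPolynomial.C X * ∏ i, MvPolynomial.X i :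
        MvPolynomial (Fin (n + 1)) ℤ[X])).coeff 1 : ℤ) : K) := by
  classical
  simp only [lin_single]
  rw [pow_one, MvPolynomial.coeff_add, MvPolynomial.coeff_map, MvPolynomial.coeff_C_mul, coeff_prod_X, coeff_prod_X,
    Polynomial.coeff_add, coeff_C, if_neg one_ne_zero, zero_add]
  split_ifs with h
  · simp
  · simp

lemma arr_det {K : Type} [Field K] {n : ℕ} (ρ : Fin (n + 1) → (_ : Fin 1) × Fin (n + 1))
    (hρ : Function.Injective ρ) :
    (Matrix.of fun (i : Fin (n + 1)) => (Pi.single (ρ i).2 (1 : K) : Fin (n + 1) → K)).det ≠ 0 := by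
  classical
  have hinj : Function.Injective fun i : Fin (n + 1) => (ρ i).2 := by
    intro a b hab
    apply hρ
    refine Sigma.ext (Subsingleton.elim _ _) ?_
    exact heq_of_eq hab
  let e : Equiv.Perm (Fin (n + 1)) := Equiv.ofBijective _ (Finite.injective_iff_bijective.1 hinj)
  have h1 : (Matrix.of fun (i : Fin (n + 1)) => (Pi.single (ρ i).2 (1 : K) : Fin (n + 1) → K)) =
      (1 : Matrix (Fin (n + 1)) (Fin (n + 1)) K).submatrix e id := by
    ext i j
    rw [Matrix.submatrix_apply, Matrix.one_apply, Matrix.of_apply, Pi.single_apply]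
    have h2 : e i = (ρ i).2 := rfl
    rw [h2, id]
    simp only [eq_comm]
  rw [h1, Matrix.det_permute, Matrix.det_one, mul_one]
  rcases Int.units_eq_one_or (Equiv.Perm.sign e) with h | h <;> rw [h] <;> simp

lemma pencil_arr (n : ℕ) (g : MvPolynomial (Fin (n + 1)) ℤ) (hg : g.IsHomogeneous (n + 1)) (K : Type) [Field K] :
    (pencil n g hg).ArrangementAtInfinity K fun _ c => Pi.single c 1 :=
  ⟨fun _ u => arr_coeff g u, fun ρ hρ => arr_det ρ hρ⟩

lemma pencil_slope (n : ℕ) (g : MvPolynomial (Fin (n + 1)) ℤ) (hg : g.IsHomogeneous (n + 1)) :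
    (pencil n g hg).slope = 1 := by
  classical
  show ∑ P : Finset (Fin 1), ((∑ _j ∈ P, (n + 1) - 1).choose n : ℝ) * ∑ _j ∈ P, ((1 : ℕ) : ℝ) / ((1 : ℕ) : ℝ) = 1
  have h1 : (univ : Finset (Finset (Fin 1))) = {∅, {0}} := by decide
  rw [h1, sum_pair (by decide)]
  simp

lemma regular_of_top {L : Family} {p : ℕ} {K : Type} [Field K] [CharP K p]
    {g : Fin L.r → MvPolynomial (Fin (L.n + 1)) K}
    (hg : ∀ j u, (g j).coeff u = (((L.f j).coeff u).coeff (L.k j) : ℤ))
    (h : ¬ NonOrd L.m L.d p g) : L.Regular p :=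
  (regular_iff L p).1 (Pool.Agent.H446.AP7.regH_of_top L.degree_le hg h)

lemma regular_of_arr {L : Family} {p : ℕ} (hp : p.Prime) (hm : ∀ j, L.m j ∣ p - 1) {K : Type} [Field K] [CharP K p]
    {l : (j : Fin L.r) → Fin (L.d j) → Fin (L.n + 1) → K} (h : L.ArrangementAtInfinity K l) : L.Regular p :=
  regular_of_top h.1 (Pool.Agent.H446.AP7.not_nonOrd_arrangement hp hm l h.2)

lemma allBad_subset (L : Family) (𝔓 : ∀ p, Place p) (y x H : ℝ) (hx : 0 ≤ x) :
    L.AllBad 𝔓 y H ⊆ L.Few 𝔓 1 0 y x H := by
  rintro P ⟨h1, h2, h3⟩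
  refine ⟨h1, h2, le_of_eq ?_⟩
  rw [sub_self, zero_mul, zero_add]
  refine Finset.sum_eq_zero fun p hp => ?_
  rw [mem_primesIn hx] at hp
  have h4 : (P.natDegree : ℝ) ≠ 0 := by
    have := h1.2.1
    exact_mod_cast this.ne'
  rw [Family.proportion, h3 p hp.1 hp.2.1, div_self h4, sub_self, zero_mul]

/-- The statement for finite sets. -/
lemma finite_sum {A : Set ℤ[X]} {x : ℝ} (hA : ∀ P ∈ A, 0 < P.natDegree)
    (h : ∀ S : Finset ℤ[X], (∀ P ∈ S, P ∈ A) → ∑ P ∈ S, (P.natDegree : ℝ) ≤ x) :
    A.Finite ∧ ∑ᶠ P ∈ A, (P.natDegree : ℝ) ≤ x := by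
  classical
  have hfin : A.Finite := by
    by_contra hinf
    obtain ⟨S, hS, hSc⟩ := Set.Infinite.exists_subset_card_eq hinf (⌊x⌋₊ + 1)
    have h2 := h S fun P hP => hS hP
    have h3 : (S.card : ℝ) ≤ ∑ P ∈ S, (P.natDegree : ℝ) := by
      calc (S.card : ℝ) = ∑ _P ∈ S, (1 : ℝ) := by simp
        _ ≤ _ := Finset.sum_le_sum fun P hP => by
            have := hA P (hS hP)
            exact_mod_cast this
    rw [hSc] at h3
    push_cast at h3
    have h4 := Nat.lt_floor_add_one x
    linarith
  refine ⟨hfin, ?_⟩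
  rw [finsum_mem_eq_finite_toFinset_sum _ hfin]
  exact h _ fun P hP => (Set.Finite.mem_toFinset hfin).1 hP

/-- **Theorem.** Let `κ > 0`; consider the families `y_j ^ (m_j) = f_j(ω, x)` of complete intersections and double covers
over projective spaces with slope `∑_P C(∑_{j ∈ P} d_j - 1, n) ∑_{j ∈ P} k_j / m_j` at most `κ`. Let `ρ_p(ω)` be the
proportion of the places of `ℚ(ω)` over `p` at which `ω` is integral and the reduction of the member is not ordinary.
(0) Let `Q` be a finite set of primes at which the family is regular (some member is ordinary), and let `S` be a nonempty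
finite set of minimal polynomials of algebraic numbers of logarithmic height at most `H`. Let `F` be their product, `D`
its degree, that is the number of these algebraic numbers with their conjugates, and `D_p` the number of the bad places
over `p` of all of them. Then `∑_{p ∈ Q} D_p ^ 2 log p / p ≤ κ log |Res(F, F')| + 2 κ ∑_{p ∈ Q} D_p log p` and
`log |Res(F, F')| ≤ 2 D ^ 2 H + 2 D log D`.
(1) There is a constant `C`, which depends only on `κ`, such that for every algebraic number `ω` of degree `N` and of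
logarithmic height at most `H`, and every `y`, the sum of `ρ_p(ω) ^ 2 log p / p` over the primes `y < p ≤ N` is at most
`2 κ H + C`, if the family is regular at these primes.
(2) For `0 < β` and `M` there is a constant `C ≥ 1`, which depends only on `κ, β, M`, such that for `y ≥ 1`, `H ≥ 0` and
`x = C y exp (2 κ H / β ^ 2)` there are at most `x` algebraic numbers (with their conjugates) of logarithmic height at
most `H`, of all degrees together, for which the sum of `(1 - ρ_p(ω)) log p / p` over the primes `y < p ≤ x` is at most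
`(1 - β) log (x / y) + M`, if the family is regular at these primes.
(3) There is a constant `C ≥ 1`, which depends only on `κ`, such that for `y ≥ 1` and `H ≥ 0` there are at most
`x = C y exp (2 κ H)` algebraic numbers (with their conjugates) of logarithmic height at most `H`, of all degrees
together, for which all places over all primes `p > y` are bad, if the family is regular at the primes `y < p ≤ x`.
(4) The family is regular at `p` if `m_j` divides `p - 1` for all `j`, and the member at infinity over some field of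
characteristic `p` is an arrangement in general position.
(5) The pencils `g + ω x_0 ⋯ x_n` of Calabi–Yau hypersurfaces have slope `1` and are regular at all primes. -/
theorem result (κ : ℝ) (hκ : 0 < κ) :
    (∀ L : Family, L.slope ≤ κ → ∀ (𝔓 : ∀ p, Place p) (Q : Finset ℕ), (∀ p ∈ Q, p.Prime ∧ L.Regular p) →
      ∀ (S : Finset ℤ[X]) (H D : ℝ), S.Nonempty → 0 ≤ H → (∀ P ∈ S, IsMinpoly P ∧ HeightLE P H) →
        D = ∑ P ∈ S, (P.natDegree : ℝ) →
          ∑ p ∈ Q, (∑ P ∈ S, (L.badPlaces (𝔓 p) P : ℝ)) ^ 2 * Real.log p / p ≤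
            κ * logDisc (∏ P ∈ S, P) + 2 * κ * ∑ p ∈ Q, (∑ P ∈ S, (L.badPlaces (𝔓 p) P : ℝ)) * Real.log p ∧
          logDisc (∏ P ∈ S, P) ≤ 2 * D ^ 2 * H + 2 * D * Real.log D) ∧
    (∃ C : ℝ, ∀ L : Family, L.slope ≤ κ → ∀ (𝔓 : ∀ p, Place p) (y H : ℝ) (P : ℤ[X]), 0 ≤ H → IsMinpoly P →
      HeightLE P H → (∀ p : ℕ, p.Prime → y < p → p ≤ P.natDegree → L.Regular p) →
        ∑ p ∈ primesIn y P.natDegree, L.proportion (𝔓 p) P ^ 2 * (Real.log p / p) ≤ 2 * κ * H + C) ∧
    (∀ β M : ℝ, 0 < β → ∃ C : ℝ, 1 ≤ C ∧ ∀ L : Family, L.slope ≤ κ → ∀ (𝔓 : ∀ p, Place p) (y H x : ℝ), 1 ≤ y →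
      0 ≤ H → x = C * y * Real.exp (2 * κ * H / β ^ 2) →
        (∀ p : ℕ, p.Prime → y < p → (p : ℝ) ≤ x → L.Regular p) →
          (L.Few 𝔓 β M y x H).Finite ∧ ∑ᶠ P ∈ L.Few 𝔓 β M y x H, (P.natDegree : ℝ) ≤ x) ∧
    (∃ C : ℝ, 1 ≤ C ∧ ∀ L : Family, L.slope ≤ κ → ∀ (𝔓 : ∀ p, Place p) (y H x : ℝ), 1 ≤ y → 0 ≤ H →
      x = C * y * Real.exp (2 * κ * H) → (∀ p : ℕ, p.Prime → y < p → (p : ℝ) ≤ x → L.Regular p) →
        (L.AllBad 𝔓 y H).Finite ∧ ∑ᶠ P ∈ L.AllBad 𝔓 y H, (P.natDegree : ℝ) ≤ x) ∧
    (∀ (L : Family) (p : ℕ), p.Prime → (∀ j, L.m j ∣ p - 1) → ∀ (K : Type) [Field K] [CharP K p]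
      (l : (j : Fin L.r) → Fin (L.d j) → Fin (L.n + 1) → K), L.ArrangementAtInfinity K l → L.Regular p) ∧
    ∀ (n : ℕ) (g : MvPolynomial (Fin (n + 1)) ℤ) (hg : g.IsHomogeneous (n + 1)),
      (pencil n g hg).slope = 1 ∧ ∀ p : ℕ, p.Prime → (pencil n g hg).Regular p := by
  classical
  have hbeta : ∀ β M : ℝ, 0 < β → ∃ C : ℝ, 1 ≤ C ∧ ∀ L : Family, L.slope ≤ κ → ∀ (𝔓 : ∀ p, Place p) (y H x : ℝ), 1 ≤ y →
      0 ≤ H → x = C * y * Real.exp (2 * κ * H / β ^ 2) →
        (∀ p : ℕ, p.Prime → y < p → (p : ℝ) ≤ x → L.Regular p) →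
          ∀ S : Finset ℤ[X], (∀ P ∈ S, P ∈ L.Few 𝔓 β M y x H) → ∑ P ∈ S, (P.natDegree : ℝ) ≤ x := by
    intro β M hβ
    obtain ⟨C, hC1, hC⟩ := Pool.Agent.H446.AP6.count' hκ le_rfl hβ M
    refine ⟨C, hC1, fun L hL 𝔓 y H x hy hH hx hreg S hS => ?_⟩
    have hx0 : 0 ≤ x := by
      rw [hx]
      positivity
    refine hC (fun p => L.Bad (𝔓 p)) y H x hy hH hx (fun p hp => ?_) S fun P hP => ?_
    · rw [mem_prs hx0] at hp
      exact test L hL hp.1 (𝔓 p) (hreg p hp.1 hp.2.1 hp.2.2)
    · obtain ⟨h1, h2, h3⟩ := hS P hP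
      refine ⟨h1, log_mm_le h1 h2, ?_⟩
      unfold Pool.Agent.H446.AP6.badP
      rw [prs_eq hx0]
      exact h3
  refine ⟨?_, ?_, ?_, ?_, ?_, ?_⟩
  · intro L hL 𝔓 Q hQ S H D hS hH hSH hD
    have h0 := Pool.Agent.H446.AP4.log_rd_pd_le hS hH
      (fun P hP => ⟨(hSH P hP).1, log_mm_le (hSH P hP).1 (hSH P hP).2⟩) hD
    have h1 := Pool.Agent.H446.AP6.core_disc' hκ le_rfl (G := fun p => L.Bad (𝔓 p)) Q
      (fun p hp => test L hL (hQ p hp).1 (𝔓 p) (hQ p hp).2) hS fun P hP => (hSH P hP).1
    have h2 : ∀ p, (Pool.Agent.H446.AP6.dgp (fun p => L.Bad (𝔓 p)) S p : ℝ) =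
        ∑ P ∈ S, (L.badPlaces (𝔓 p) P : ℝ) := by
      intro p
      unfold Pool.Agent.H446.AP6.dgp
      push_cast
      rfl
    simp only [h2] at h1
    have h3 : ∑ p ∈ Q, (∑ P ∈ S, (L.badPlaces (𝔓 p) P : ℝ)) ^ 2 * Real.log p / p =
        ∑ p ∈ Q, Real.log p * ((∑ P ∈ S, (L.badPlaces (𝔓 p) P : ℝ)) ^ 2 / (p + 0)) := by
      refine Finset.sum_congr rfl fun p _ => ?_
      rw [add_zero]
      ring
    have h4 : ∑ p ∈ Q, (∑ P ∈ S, (L.badPlaces (𝔓 p) P : ℝ)) * Real.log p =
        ∑ p ∈ Q, Real.log p * ∑ P ∈ S, (L.badPlaces (𝔓 p) P : ℝ) :=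
      Finset.sum_congr rfl fun p _ => mul_comm _ _
    rw [h3, h4]
    refine ⟨h1, h0.trans (le_of_eq ?_)⟩
    ring
  · obtain ⟨C, -, hC⟩ := Pool.Agent.H446.AP6.single' hκ le_rfl
    refine ⟨C, fun L hL 𝔓 y H P hH hP hPH hreg => ?_⟩
    have h1 := hC (fun p => L.Bad (𝔓 p)) y H hH P hP (log_mm_le hP hPH) fun p hp => by
      rw [mem_prs (Nat.cast_nonneg _)] at hp
      exact test L hL hp.1 (𝔓 p) (hreg p hp.1 hp.2.1 (by exact_mod_cast hp.2.2))
    rw [prs_eq (Nat.cast_nonneg _)] at h1
    exact h1
  · intro β M hβ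
    obtain ⟨C, hC1, hC⟩ := hbeta β M hβ
    exact ⟨C, hC1, fun L hL 𝔓 y H x hy hH hx hreg =>
      finite_sum (fun P hP => hP.1.2.1) (hC L hL 𝔓 y H x hy hH hx hreg)⟩
  · obtain ⟨C, hC1, hC⟩ := hbeta 1 0 one_pos
    refine ⟨C, hC1, fun L hL 𝔓 y H x hy hH hx hreg => ?_⟩
    have hx0 : 0 ≤ x := by
      rw [hx]
      positivity
    refine finite_sum (fun P hP => hP.1.2.1) fun S hS => ?_
    refine hC L hL 𝔓 y H x hy hH ?_ hreg S fun P hP => allBad_subset L 𝔓 y x H hx0 (hS P hP)
    rw [hx]
    norm_num
  · intro L p hp hm K _ _ l hl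
    exact regular_of_arr hp hm hl
  · intro n g hg
    refine ⟨pencil_slope n g hg, fun p hp => ?_⟩
    have := Fact.mk hp
    exact regular_of_arr hp (fun _ => one_dvd _) (pencil_arr n g hg (ZMod p))

end Pool.Agent.Results.MP_adc574_ag.NonOrdinaryMembers
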