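import Pool.Agent.H367.OS.GPlain

/-!
# Dense ordinary reduction and single pieces of one sequence of cubics

A relation `r` of size `m` is one of the equations `x_i x_j = x_l`, `x_i + x_j = x_l`, `x_i = 1` with
`i, j, l < m`; the relations are numbered, the number of `r` is `ν(r)` (`relNum`). Let `G_m` be the
following polynomial with integral coefficients (`univG ℤ m`). There are variables `x_i` and `z_ij` for
`i, j < m`, a variable `c_r` for every relation `r`, and variables `y_{r,l}` for all relations `r` and
`l < (m + 1) 2 ^ ν(r)`. The equations (`eqnG`) are

  `z_ij - x_i x_j`,  `c_r ^ 2 - c_r`,  `c_r ρ_r`,  `(1 - c_r) y_{r,l}`,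

where `ρ_r` is the linear polynomial `z_ij - x_l`, `x_i + x_j - x_l` or `x_i - 1` of the relation.
`G_m` is the sum of the equations multiplied by further variables `t_e`, one for each equation. It has
degree three. Let `C_m` be the affine cubic hypersurface `G_m = 1` (`cubG R m` over the ring `R`); it is
smooth over the integers.

Let `M` be the category of motives over `ℚ` (motivated cycles), a semisimple abelian category with
Tate twists `N ↦ N(a)`. For a separated scheme `X` of finite type over `ℚ` let `D.G w j X = Gr^W_w
H^j_c(X)` be the part of weight `w` of the cohomology with compact supports, a motive over `ℚ`; for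
smooth projective `Y` it is `h^j(Y)` if `j = w`, and zero otherwise.

For a motive `N` over `ℚ` let `ord N` be the set of the prime numbers `p` such that `N` has good
reduction at `p` (in the sense that its `p`-adic realization is crystalline at `p`) and is ordinary:
the Newton polygon of Frobenius is the Hodge polygon of `N`. If `N` is a direct factor of `N'`, it is
ordinary at all primes in `ord N'` except finitely many (the Newton polygons of the two factors lie on
or above their Hodge polygons), and Tate twists do not matter; see `IsPlaces`.

For an algebraically closed field `k` of characteristic zero and a connected smooth projective scheme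
`X` over `k` let `Dense k X` be the statement of question Q1 for `X` and all its models. The
statements are related as follows (hypothesis `Describes`).

* If question Q1 has a positive answer for the components of `Y_ℚ̄`, where `Y` is a smooth projective
  scheme over `ℚ` (consider a model of each component over a ring `𝓞_L[1/n]`, and of products of
  components), the set `ord (h^i(Y))` is infinite for all `i`.
* For every `X` over `k` there are a smooth projective scheme `Y` over `ℚ` and an `i` such that `Dense k X`
  follows if `ord (h^i(Y))` is infinite. For a model `X_A` and a nonempty open subset of `Spec A` there is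
  a homomorphism from `A` to a ring `R = 𝓞_L[1/n]`, `L` a number field, which maps `Spec R` to this subset.
  Let `Z` be the generic fibre of `X_R` as a scheme over `ℚ`, `E` an elliptic curve over `ℚ`, and
  `Y = Z × E ^ s` for a large `s`. A tensor product of two motives is ordinary at `p` if and only if both
  are (compare the sums of the squares of the slopes), and `h^i(Y)` contains all
  `h^a(Z) ⊗ h^1(E) ^ {⊗ (i - a)}`. So `X_R` is ordinary above infinitely many `p`. (As the open subset is
  arbitrary, the hypothesis `reduce` is formulated for all `Y`: `Dense k X` follows from the statements for
  the members of a family of pairs `(Y, i)`.)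

**Theorem.** Let `E_m` be the number of the equations, and for `N ∈ ℕ` let `e = (m + 1) N + E_m - 1`
(`esh m N`).

(1) Question Q1 has a positive answer for all `k` and `X` if and only if for infinitely many `m` the
sets of the ordinary primes of the single motives `Gr^W_{j-1} H^j_c(C_m)` are infinite, for all `j`.

(2) In each degree: the sets of the ordinary primes of `h^w(Y)` are infinite for all smooth projective
`Y` over `ℚ` if and only if for infinitely many `m` this is true for the single motives `Gr^W_{w+2e}
H^{w+2e+1}_c(C_m)`, for all `N`. For `w = 1` this is question Q1 for abelian varieties.

(3) The hypersurfaces `C_m` decide the statement for the pieces of the cohomology (`DecidesPlain`). For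
every affine scheme `Spec B` of finite type over `ℚ` and all large `m` there is an `N` such that for
`0 ≤ w ≤ 2 m + 1` and all `j` the statement for `Gr^W_w H^j_c(Spec B)` is equivalent to the one for
`Gr^W_{w+2e} H^{j+2e+1}_c(C_m)`. For every smooth projective `Y` over `ℚ`, every `d` and all large `m`
there is an `e'` such that for all `i ≤ d` the statement for `h^i(Y)` is equivalent to the one for
`Gr^W_{i+2e'} H^{i+2e'+1}_c(C_m)`. The statements for the pieces of one `C_m` imply those for all pieces
of a given separated scheme `X` of finite type.

(4) `G_m` has integral coefficients and degree at most three, and `C_m` is smooth over all rings.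

The hypotheses on the motives are standard (`IsMot`): exact sequences, affine bundles, disjoint unions,
the cohomology of affine spaces, the weights of `H^j_c(X)` are between `0` and `2 dim X`, monomorphisms
split, `Gr^W_w H^j_c(X)` is a direct factor of `h^w(Y)` for some smooth projective `Y` (it is a
subquotient, by the weight spectral sequence), and every smooth projective scheme has an affine bundle
whose total space is affine (Jouanolou).

Idea of the proof. The projection of `C_m` to the affine space with the coordinates `x, z, c, y` is an
affine bundle over the complement of the zero set `W_m` of the equations. The scheme `W_m` is the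
disjoint union, over all sets `s` of relations (`c_r = 1` for `r ∈ s` and `c_r = 0` for the others), of
the products `X_s × 𝔸 ^ ((m + 1) N(s))`, where `X_s` is the affine scheme defined by the relations in
`s` and `N(s) = ∑_{r ∈ s} 2 ^ ν(r)`. The numbers `N(s)` are different, and the weights of the
cohomology of `X_s` are between `0` and `2 m`. So the part of weight `w + 2 (m + 1) N(s)`,
`0 ≤ w ≤ 2 m + 1`, of the cohomology of `W_m` is the twist of the part of weight `w` of the cohomology of
`X_s`, and it is different from the weight of the cohomology of the affine space. Every affine scheme of
finite type over a prime field is an `X_s`, for all large `m`. The pieces of the cohomology of an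
arbitrary scheme are direct factors of those of a disjoint union of affine schemes.

The universal system of relations is the one of helper854 (`Pool.Agent.H854.SQ`).
-/

set_option autoImplicit false

open CategoryTheory CategoryTheory.Limits AlgebraicGeometry Pool.Agent.Y116.UV Pool.Agent.Z125.UN
  Pool.Agent.Q193.LT Pool.Agent.H854.SQ Pool.Agent.H367.OS

universe v u



namespace Pool.Agent.Results.MP_adc574_ag.PiecesOfOneSequence

/-- Question Q1 for all algebraically closed fields of characteristic zero and all connected smooth
projective schemes. -/
def Q1 (Dense : ∀ (k : Type) [Field k], Sch k → Prop) : Prop :=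
  ∀ (k : Type) [Field k] [IsAlgClosed k] [CharZero k] (X : Sch k), SmoothProj X →
    ConnectedSpace X.left → Dense k X

/-- The relation of question Q1 with motives over `ℚ`: if it has a positive answer, the sets of the
ordinary primes of all `h^i(Y)` are infinite, and for every `X` over `k` the statement follows from this
for a family of smooth projective schemes over `ℚ`, in one degree each. -/
structure Describes {M : Type u} [Category.{v} M] (D : Pieces ℚ M) (ord : M → Set ℕ)
    (Dense : ∀ (k : Type) [Field k], Sch k → Prop) : Prop where
  rational : Q1 Dense → ∀ Y : Sch ℚ, SmoothProj Y → ∀ i : ℤ, (ord (D.G i i Y)).Infinite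
  reduce : ∀ (k : Type) [Field k] [IsAlgClosed k] [CharZero k] (X : Sch k), SmoothProj X →
    ConnectedSpace X.left → ∃ (I : Type) (Y : I → Sch ℚ) (i : I → ℤ), (∀ a, SmoothProj (Y a)) ∧
      ((∀ a, (ord (D.G (i a) (i a) (Y a))).Infinite) → Dense k X)

/-- **Dense ordinary reduction and single pieces of one sequence of cubic hypersurfaces over the
integers.** See the explanations above. -/
theorem result {M : Type u} [Category.{v} M] [Abelian M] {D : Pieces ℚ M} (h : IsMot D)
    {ord : M → Set ℕ} (ho : IsPlaces D ord) {Dense : ∀ (k : Type) [Field k], Sch k → Prop}
    (describes : Describes D ord Dense) :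
    (Q1 Dense ↔ ∃ᶠ m in Filter.atTop, ∀ j : ℤ, (ord (D.G (j - 1) j (cubG ℚ m))).Infinite) ∧
    (∀ w : ℕ, (∀ Y : Sch ℚ, SmoothProj Y → (ord (D.G w w Y)).Infinite) ↔
      ∃ᶠ m in Filter.atTop, ∀ N : ℕ,
        (ord (D.G (w + 2 * esh m N) (w + 2 * esh m N + 1) (cubG ℚ m))).Infinite) ∧
    DecidesPlain D (Large Set.Infinite ord) ∧
    ∀ m : ℕ, (univG ℤ m).totalDegree ≤ 3 ∧
      ∀ (R : Type) [CommRing R], MvPolynomial.map (Int.castRingHom R) (univG ℤ m) = univG R m ∧
        Smooth (cubG R m).hom := by
  have hd := decides_large isPrimeField_rat h ho large_infinite
  have h1 := hd.all.out 1 0
  refine ⟨Iff.trans ⟨?_, ?_⟩ h1, fun w => (hd.weight w).out 1 0, hd, cubG_facts⟩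
  · exact fun g Y hY i => describes.rational g Y hY i
  · intro g k _ _ _ X hX hc
    obtain ⟨I, Y, i, hY, h2⟩ := describes.reduce k X hX hc
    exact h2 fun a => g (Y a) (hY a) (i a)

end Pool.Agent.Results.MP_adc574_ag.PiecesOfOneSequence
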